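import Pool.Agent.R215.PM.Main

set_option autoImplicit false
open MeasureTheory Filter Topology Set

namespace Pool.Agent.R215.PM

variable {L D : ℝ} {P h v J : ℝ → ℝ}

/-- upper bound of the flux leaving a gap to the right -/
theorem gap_right (hD : 0 < D) (hP : Continuous P) (hh : Continuous h) (hP0 : ∀ x, 0 < P x)
    (hh0 : ∀ x, 0 < h x) (F : IsFlow L D P h v J) {s t H τ : ℝ} (hs : s ∈ Icc 0 L)
    (ht : t ∈ Icc 0 L) (hst : s < t) (hH : v s ≤ H)
    (hτ : ∫ x in s..t, cap P h x ≤ τ) : J t ≤ D * H / (t - s) + τ := by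
  have h1 : ∀ x ∈ Icc s t, J t - τ ≤ J x := by
    intro x hx
    have hxm : x ∈ Icc 0 L := ⟨hs.1.trans hx.1, hx.2.trans ht.2⟩
    have h2 := int_rea_le hP hh hP0 hh0 F hxm ht hx.2
    have h3 := int_cap_mono hP hh hP0 hh0 hx.1 hx.2 le_rfl
    linarith
  have h2 : ∫ _x in s..t, (J t - τ) ≤ ∫ x in s..t, J x :=
    intervalIntegral.integral_mono_on hst.le intervalIntegrable_const (ii_on F.cJ hs ht) h1
  rw [drop hD F hs ht hst.le, intervalIntegral.integral_const, smul_eq_mul] at h2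
  have h3 := F.pos t ht
  have h4 : (t - s) * (J t - τ) ≤ D * H := by
    have : D * (v s - v t) ≤ D * H := mul_le_mul_of_nonneg_left (by linarith) hD.le
    linarith
  have h5 : J t - τ ≤ D * H / (t - s) := by
    rw [le_div_iff₀ (by linarith)]
    linarith
  linarith

/-- upper bound of the flux leaving a gap to the left -/
theorem gap_left (hD : 0 < D) (hP : Continuous P) (hh : Continuous h) (hP0 : ∀ x, 0 < P x)
    (hh0 : ∀ x, 0 < h x) (F : IsFlow L D P h v J) {s t H τ : ℝ} (hs : s ∈ Icc 0 L)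
    (ht : t ∈ Icc 0 L) (hst : s < t) (hH : v t ≤ H)
    (hτ : ∫ x in s..t, cap P h x ≤ τ) : -J s ≤ D * H / (t - s) + τ := by
  have h1 : ∀ x ∈ Icc s t, J x ≤ J s + τ := by
    intro x hx
    have hxm : x ∈ Icc 0 L := ⟨hs.1.trans hx.1, hx.2.trans ht.2⟩
    have h2 := int_rea_le hP hh hP0 hh0 F hs hxm hx.1
    have h3 := int_cap_mono hP hh hP0 hh0 le_rfl hx.1 hx.2
    linarith
  have h2 : ∫ x in s..t, J x ≤ ∫ _x in s..t, (J s + τ) :=
    intervalIntegral.integral_mono_on hst.le (ii_on F.cJ hs ht) intervalIntegrable_const h1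
  rw [drop hD F hs ht hst.le, intervalIntegral.integral_const, smul_eq_mul] at h2
  have h3 := F.pos s hs
  have h4 : (t - s) * (-J s - τ) ≤ D * H := by
    have : D * (v t - v s) ≤ D * H := mul_le_mul_of_nonneg_left (by linarith) hD.le
    linarith
  have h5 : -J s - τ ≤ D * H / (t - s) := by
    rw [le_div_iff₀ (by linarith)]
    linarith
  linarith

/-- the level is small somewhere in the strong sink `[c1, c2]` -/
theorem small_in_sink (hP : Continuous P) (hh : Continuous h) (hP0 : ∀ x, 0 < P x)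
    (hh0 : ∀ x, 0 < h x) (F : IsFlow L D P h v J) {c1 c2 R Ct : ℝ} (hL : 0 < L)
    (h1 : 0 ≤ c1) (h2 : c1 ≤ c2) (h3 : c2 ≤ L) (hR : 0 < R)
    (hhR : ∀ x ∈ Icc c1 c2, h x ≤ R / 16) (hCt : ∫ x in (0:ℝ)..L, cap P h x ≤ Ct)
    (hb : Ct < R ^ 2 / 128 * ∫ x in c1..c2, P x / Real.sqrt (h x)) :
    ∃ y ∈ Icc c1 c2, v y < R / 8 := by
  by_contra hc
  push Not at hc
  have m0 : (0:ℝ) ∈ Icc 0 L := left_mem_Icc.2 hL.le
  have mL : L ∈ Icc 0 L := right_mem_Icc.2 hL.le
  have m1 : c1 ∈ Icc 0 L := ⟨h1, h2.trans h3⟩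
  have m2 : c2 ∈ Icc 0 L := ⟨h1.trans h2, h3⟩
  have k1 := int_rea_le hP hh hP0 hh0 F m0 m1 h1
  have k3 := int_rea_le hP hh hP0 hh0 F m2 mL h3
  have k2 : J c2 - J c1 ≤ -(R ^ 2 / 128 * ∫ x in c1..c2, P x / Real.sqrt (h x)) := by
    rw [← flux hP hh hh0 F m1 m2 h2, ← intervalIntegral.integral_const_mul,
      ← intervalIntegral.integral_neg]
    have hc0 : Continuous fun x => P x / Real.sqrt (h x) :=
      hP.div (Real.continuous_sqrt.comp hh) fun x => (sqrt_pos' hh0 x).ne'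
    refine intervalIntegral.integral_mono_on h2 (ii_on (cont_rea hP hh hh0 F) m1 m2)
      ((continuous_const.mul hc0).neg.intervalIntegrable _ _) fun x hx => ?_
    have hs := sqrt_pos' hh0 x
    have q1 := hc x hx
    have q2 := hhR x hx
    have q3 := hP0 x
    unfold rea
    have e1 : -(R ^ 2 / 128 * (P x / Real.sqrt (h x))) =
        -(R ^ 2 / 128 * P x) / Real.sqrt (h x) := by ring
    rw [e1]
    apply div_le_div_of_nonneg_right _ hs.le
    have q4 : R / 8 * (R / 16) ≤ v x * (v x - h x) :=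
      mul_le_mul q1 (by linarith) (by positivity) (by linarith)
    have q5 := mul_le_mul_of_nonneg_left q4 q3.le
    linarith
  have k4 : (∫ x in (0:ℝ)..c1, cap P h x) + (∫ x in c2..L, cap P h x) ≤
      ∫ x in (0:ℝ)..L, cap P h x := by
    have hc := cont_cap hP hh
    have e3 : ∫ x in (0:ℝ)..L, cap P h x = (∫ x in (0:ℝ)..c1, cap P h x) +
        (∫ x in c1..c2, cap P h x) + ∫ x in c2..L, cap P h x := by
      rw [intervalIntegral.integral_add_adjacent_intervals (hc.intervalIntegrable _ _)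
        (hc.intervalIntegrable _ _),
        intervalIntegral.integral_add_adjacent_intervals (hc.intervalIntegrable _ _)
        (hc.intervalIntegrable _ _)]
    have e4 : 0 ≤ ∫ x in c1..c2, cap P h x :=
      intervalIntegral.integral_nonneg h2 fun x _ => cap_nonneg hP0 hh0 x
    linarith
  rw [F.J0] at k1
  rw [F.JL] at k3
  linarith

/-- the total population excess is small -/
theorem upper (hD : 0 < D) (hL : 0 < L) (hP : Continuous P) (hh : Continuous h)
    (hP0 : ∀ x, 0 < P x) (hh0 : ∀ x, 0 < h x) (F : IsFlow L D P h v J)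
    {H R ψ0 ψ1 ψ2 s1 t1 s2 t2 c1 c2 t3 e1 e2 τ τ3 Ct E lA l' : ℝ}
    (o1 : 0 ≤ s1) (o2 : s1 < t1) (o3 : t1 ≤ s2) (o4 : s2 < t2) (o5 : t2 ≤ c1) (o6 : c1 ≤ c2)
    (o7 : c2 ≤ t3) (o8 : t3 ≤ e1) (o9 : e1 ≤ e2) (o10 : e2 ≤ L)
    (hH : ∀ x ∈ Icc 0 L, h x ≤ H) (hR : 0 < R) (hhR : ∀ x ∈ Icc c1 L, h x ≤ R)
    (hlA : 0 < lA) (hA1 : lA ≤ t1 - s1) (hA2 : lA ≤ t2 - s2) (hl' : 0 < l') (hl2 : e2 - c1 ≤ l')
    (hψ0 : 0 < ψ0) (hψ2 : ψ0 ≤ ψ2) (hψ1 : 2 * ψ0 ≤ ψ1)
    (hτ1 : ∫ x in s1..t1, cap P h x ≤ τ) (hτ2 : ∫ x in s2..t2, cap P h x ≤ τ)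
    (hCt : ∫ x in (0:ℝ)..L, cap P h x ≤ Ct)
    (hτ3 : (∫ x in t2..t3, cap P h x) +
      (∫ x in t3..L, P x / Real.sqrt (h x) * (R * (R - h x))) ≤ τ3)
    (hhc : ∀ x ∈ Icc c1 c2, h x ≤ R / 16)
    (hb : Ct < R ^ 2 / 128 * ∫ x in c1..c2, P x / Real.sqrt (h x))
    (hhe : ∀ x ∈ Icc e1 e2, 3 * R / 4 ≤ h x)
    (hψR : ∀ x ∈ Icc e1 e2, ψ1 * R ≤ 6 / 5 * Real.sqrt (h x))
    (hN : ψ2 * Ct ≤ ∫ x in e1..e2, P x * (R / 10))
    (hE : (∫ x in (0:ℝ)..t1, cost P h ψ0 x) + (∫ x in t1..s2, cost P h ψ2 x) +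
      (∫ x in s2..t3, cost P h ψ0 x) + (∫ x in t3..L, cost P h ψ1 x) ≤ E)
    (hbr : 2 * ψ2 * H / lA ≤ 3 / 16 * ψ1 * R / l') :
    ∫ x in (0:ℝ)..L, P x * (v x - h x) ≤ 2 * ψ2 * τ + ψ1 * τ3 + E := by
  have hψ1' : 0 < ψ1 := by linarith
  have hψ2' : 0 < ψ2 := by linarith
  have m0 : (0:ℝ) ∈ Icc 0 L := left_mem_Icc.2 hL.le
  have mL : L ∈ Icc 0 L := right_mem_Icc.2 hL.le
  have ms1 : s1 ∈ Icc 0 L := ⟨o1, by linarith⟩
  have mt1 : t1 ∈ Icc 0 L := ⟨by linarith, by linarith⟩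
  have ms2 : s2 ∈ Icc 0 L := ⟨by linarith, by linarith⟩
  have mt2 : t2 ∈ Icc 0 L := ⟨by linarith, by linarith⟩
  have mt3 : t3 ∈ Icc 0 L := ⟨by linarith, by linarith⟩
  have mc1 : c1 ∈ Icc 0 L := ⟨by linarith, by linarith⟩
  -- bounds on v
  have vH : ∀ x ∈ Icc 0 L, v x ≤ H := max_le hD hL hP hh hP0 hh0 F m0 (Or.inl rfl) hH
  obtain ⟨y, hy, hyv⟩ := small_in_sink hP hh hP0 hh0 F hL (by linarith) o6 (by linarith) hR hhc
    hCt hb
  have my : y ∈ Icc 0 L := ⟨by linarith [hy.1], by linarith [hy.2]⟩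
  have vR : ∀ x ∈ Icc y L, v x ≤ R := max_le hD hL hP hh hP0 hh0 F my (Or.inr (by linarith))
    fun x hx => hhR x ⟨hy.1.trans hx.1, hx.2⟩
  -- flux bounds
  have hτ0 : 0 ≤ τ := le_trans (intervalIntegral.integral_nonneg o2.le
    fun x _ => cap_nonneg hP0 hh0 x) hτ1
  have hH0 : 0 < H := lt_of_lt_of_le (F.pos 0 m0) (vH 0 m0)
  -- negative part of the reaction on the last region
  have hcR : ContinuousOn (fun x => P x / Real.sqrt (h x) * (R * (R - h x))) (Icc 0 L) := by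
    refine Continuous.continuousOn ?_
    exact (hP.div (Real.continuous_sqrt.comp hh) fun x => (sqrt_pos' hh0 x).ne').mul
      (continuous_const.mul (continuous_const.sub hh))
  have neg : ∀ x ∈ Icc t3 L, -(P x / Real.sqrt (h x) * (R * (R - h x))) ≤ rea P h v x := by
    intro x hx
    have hxL : x ∈ Icc 0 L := ⟨mt3.1.trans hx.1, hx.2⟩
    have g1 := vR x ⟨(hy.2.trans o7).trans hx.1, hx.2⟩
    have g2 := hhR x ⟨(o6.trans o7).trans hx.1, hx.2⟩
    have g3 := F.pos x hxL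
    have g4 := hP0 x
    have hs := sqrt_pos' hh0 x
    unfold rea
    have g5 : v x * (v x - h x) ≤ R * (R - h x) := by
      rcases le_total (v x) (h x) with g | g
      · have : v x * (v x - h x) ≤ 0 := mul_nonpos_of_nonneg_of_nonpos g3.le (by linarith)
        have : 0 ≤ R * (R - h x) := mul_nonneg hR.le (by linarith)
        linarith
      · exact mul_le_mul g1 (by linarith) (by linarith) hR.le
    have e5 : -(P x / Real.sqrt (h x) * (R * (R - h x))) =
        -(P x * (R * (R - h x))) / Real.sqrt (h x) := by ring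
    rw [e5]
    apply div_le_div_of_nonneg_right _ hs.le
    have := mul_le_mul_of_nonneg_left g5 g4.le
    linarith
  have capn : 0 ≤ ∫ x in t2..t3, cap P h x :=
    intervalIntegral.integral_nonneg (by linarith) fun x _ => cap_nonneg hP0 hh0 x
  have negint : ∀ x ∈ Icc t3 L, -(∫ s in t3..L, P s / Real.sqrt (h s) * (R * (R - h s))) ≤
      J x - J t3 := by
    intro x hx
    have hxL : x ∈ Icc 0 L := ⟨mt3.1.trans hx.1, hx.2⟩
    rw [← flux hP hh hh0 F mt3 hxL hx.1]
    have g1 : ∫ s in t3..x, -(P s / Real.sqrt (h s) * (R * (R - h s))) ≤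
        ∫ s in t3..x, rea P h v s :=
      intervalIntegral.integral_mono_on hx.1 (ii_on hcR mt3 hxL).neg
        (ii_on (cont_rea hP hh hh0 F) mt3 hxL) fun s hs => neg s ⟨hs.1, hs.2.trans hx.2⟩
    rw [intervalIntegral.integral_neg] at g1
    have g2 : ∫ s in t3..x, P s / Real.sqrt (h s) * (R * (R - h s)) ≤
        ∫ s in t3..L, P s / Real.sqrt (h s) * (R * (R - h s)) := by
      rw [← intervalIntegral.integral_add_adjacent_intervals (ii_on hcR mt3 hxL)
        (ii_on hcR hxL mL)]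
      have : 0 ≤ ∫ s in x..L, P s / Real.sqrt (h s) * (R * (R - h s)) := by
        apply intervalIntegral.integral_nonneg hx.2
        intro s hs
        have g2 := hhR s ⟨((o6.trans o7).trans hx.1).trans hs.1, hs.2⟩
        have g4 := hP0 s
        have hs := sqrt_pos' hh0 s
        have : 0 ≤ R - h s := by linarith
        positivity
      linarith
    linarith
  have hJ3 : -τ3 ≤ -J t3 := by
    have := negint L ⟨mt3.2, le_rfl⟩
    rw [F.JL] at this
    linarith
  -- master inequality on the first three regions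
  have r1 := region hP hh hP0 hh0 F hψ0 m0 mt1 mt1.1
  have r2 := region hP hh hP0 hh0 F hψ2' mt1 ms2 o3
  have r3 := region hP hh hP0 hh0 F hψ0 ms2 mt3 (by linarith)
  have hsplit : ∫ x in (0:ℝ)..L, P x * (v x - h x) = (∫ x in (0:ℝ)..t1, P x * (v x - h x)) +
      (∫ x in t1..s2, P x * (v x - h x)) + (∫ x in s2..t3, P x * (v x - h x)) +
      ∫ x in t3..L, P x * (v x - h x) := by
    have hc : ContinuousOn (fun x => P x * (v x - h x)) (Icc 0 L) :=
      hP.continuousOn.mul (F.cv.sub hh.continuousOn)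
    rw [intervalIntegral.integral_add_adjacent_intervals (ii_on hc m0 mt1) (ii_on hc mt1 ms2),
      intervalIntegral.integral_add_adjacent_intervals (ii_on hc m0 ms2) (ii_on hc ms2 mt3),
      intervalIntegral.integral_add_adjacent_intervals (ii_on hc m0 mt3) (ii_on hc mt3 mL)]
  rw [F.J0] at r1
  by_cases hreg : ∀ x ∈ Icc e1 e2, v x ≤ R / 2
  · -- first case: the source `[e1, e2]` is depleted
    have r4 := region' hP hh hP0 hh0 F hψ1' mt3 mL hR o8 o9 o10 hreg hhe hψR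
    rw [F.JL] at r4
    have k1 := int_rea_le hP hh hP0 hh0 F m0 mt1 mt1.1
    have k2 := int_rea_le hP hh hP0 hh0 F ms2 mL ms2.2
    rw [F.J0] at k1
    rw [F.JL] at k2
    have k3 : (∫ x in (0:ℝ)..t1, cap P h x) + (∫ x in s2..L, cap P h x) ≤ Ct := by
      have hc := cont_cap hP hh
      have e3 : ∫ x in (0:ℝ)..L, cap P h x = (∫ x in (0:ℝ)..t1, cap P h x) +
          (∫ x in t1..s2, cap P h x) + ∫ x in s2..L, cap P h x := by
        rw [intervalIntegral.integral_add_adjacent_intervals (hc.intervalIntegrable _ _)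
          (hc.intervalIntegrable _ _),
          intervalIntegral.integral_add_adjacent_intervals (hc.intervalIntegrable _ _)
          (hc.intervalIntegrable _ _)]
      have e4 : 0 ≤ ∫ x in t1..s2, cap P h x :=
        intervalIntegral.integral_nonneg o3 fun x _ => cap_nonneg hP0 hh0 x
      linarith
    have hCt0 : 0 ≤ Ct := le_trans (intervalIntegral.integral_nonneg hL.le
      fun x _ => cap_nonneg hP0 hh0 x) hCt
    have k4 : J t1 - J s2 ≤ Ct := by linarith
    have k5 : (ψ2 - ψ0) * (J t1 - J s2) ≤ ψ2 * Ct := by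
      have : (ψ2 - ψ0) * (J t1 - J s2) ≤ (ψ2 - ψ0) * Ct :=
        mul_le_mul_of_nonneg_left k4 (by linarith)
      have : 0 ≤ ψ0 * Ct := by positivity
      linarith
    have hτ3' : 0 ≤ τ3 := by
      have : 0 ≤ ∫ s in t3..L, P s / Real.sqrt (h s) * (R * (R - h s)) := by
        apply intervalIntegral.integral_nonneg mt3.2
        intro s hs
        have g2 := hhR s ⟨(o6.trans o7).trans hs.1, hs.2⟩
        have g4 := hP0 s
        have hs := sqrt_pos' hh0 s
        have : 0 ≤ R - h s := by linarith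
        positivity
      linarith
    have k6 : (ψ1 - ψ0) * J t3 ≤ ψ1 * τ3 := by
      have : (ψ1 - ψ0) * J t3 ≤ (ψ1 - ψ0) * τ3 :=
        mul_le_mul_of_nonneg_left (by linarith) (by linarith)
      have : 0 ≤ ψ0 * τ3 := by positivity
      linarith
    have k7 : 0 ≤ 2 * ψ2 * τ := by positivity
    rw [hsplit]
    have : ψ0 * (0 - J t1) + ψ2 * (J t1 - J s2) + ψ0 * (J s2 - J t3) + ψ1 * (J t3 - 0) =
      (ψ2 - ψ0) * (J t1 - J s2) + (ψ1 - ψ0) * J t3 := by ring
    linarith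
  · -- second case: strong flux from the source into the sink
    push Not at hreg
    obtain ⟨x2, hx2, hx2v⟩ := hreg
    have r4 := region hP hh hP0 hh0 F hψ1' mt3 mL mt3.2
    rw [F.JL] at r4
    have mx2 : x2 ∈ Icc 0 L := ⟨by linarith [hx2.1], by linarith [hx2.2]⟩
    have hyx : y ≤ x2 := by linarith [hx2.1, hy.2]
    have b1 : ∀ x ∈ Icc y x2, -J x ≤ -J t3 + τ3 := by
      intro x hx
      have hxm : x ∈ Icc 0 L := ⟨my.1.trans hx.1, hx.2.trans mx2.2⟩
      rcases le_total x t3 with g | g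
      · have g1 := int_rea_le hP hh hP0 hh0 F hxm mt3 g
        have g2 : ∫ x in x..t3, cap P h x ≤ ∫ x in t2..t3, cap P h x :=
          int_cap_mono hP hh hP0 hh0 (by linarith [hx.1, hy.1]) g le_rfl
        have g3 : 0 ≤ ∫ s in t3..L, P s / Real.sqrt (h s) * (R * (R - h s)) := by
          apply intervalIntegral.integral_nonneg mt3.2
          intro s hs
          have g2 := hhR s ⟨(o6.trans o7).trans hs.1, hs.2⟩
          have g4 := hP0 s
          have hs := sqrt_pos' hh0 s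
          have : 0 ≤ R - h s := by linarith
          positivity
        linarith
      · have g1 := negint x ⟨g, hxm.2⟩
        linarith
    have b2 : ∫ x in y..x2, -J x ≤ ∫ _x in y..x2, (-J t3 + τ3) :=
      intervalIntegral.integral_mono_on hyx (ii_on F.cJ my mx2).neg intervalIntegrable_const b1
    rw [intervalIntegral.integral_neg, drop hD F my mx2 hyx, intervalIntegral.integral_const,
      smul_eq_mul] at b2
    have b3 : D * (3 / 8 * R) ≤ (x2 - y) * (-J t3 + τ3) := by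
      have : D * (3 / 8 * R) ≤ D * (v x2 - v y) :=
        mul_le_mul_of_nonneg_left (by linarith) hD.le
      linarith
    have b4 : x2 - y ≤ l' := by linarith [hx2.2, hy.1]
    have b5 : 0 ≤ -J t3 + τ3 := by linarith
    have b6 : D * (3 / 8 * R) ≤ l' * (-J t3 + τ3) :=
      b3.trans (mul_le_mul_of_nonneg_right b4 b5)
    have b7 : D * (3 / 8 * R) / l' ≤ -J t3 + τ3 := by
      rw [div_le_iff₀ hl']
      linarith
    have b8 : (ψ1 - ψ0) * J t3 ≤ -(D * (3 / 16 * ψ1 * R / l')) + ψ1 * τ3 := by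
      have q1 : (ψ1 - ψ0) * (D * (3 / 8 * R) / l') ≤ (ψ1 - ψ0) * (-J t3 + τ3) :=
        mul_le_mul_of_nonneg_left b7 (by linarith)
      have q2 : ψ1 / 2 * (D * (3 / 8 * R) / l') ≤ (ψ1 - ψ0) * (D * (3 / 8 * R) / l') := by
        apply mul_le_mul_of_nonneg_right (by linarith)
        positivity
      have q3 : (ψ1 - ψ0) * τ3 ≤ ψ1 * τ3 := by
        have hτ3' : 0 ≤ τ3 := by
          have g3 : 0 ≤ ∫ s in t3..L, P s / Real.sqrt (h s) * (R * (R - h s)) := by
            apply intervalIntegral.integral_nonneg mt3.2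
            intro s hs
            have g2 := hhR s ⟨(o6.trans o7).trans hs.1, hs.2⟩
            have g4 := hP0 s
            have hs := sqrt_pos' hh0 s
            have : 0 ≤ R - h s := by linarith
            positivity
          linarith
        have : 0 ≤ ψ0 * τ3 := by positivity
        linarith
      have q4 : ψ1 / 2 * (D * (3 / 8 * R) / l') = D * (3 / 16 * ψ1 * R / l') := by ring
      linarith
    have c1 := gap_right hD hP hh hP0 hh0 F ms1 mt1 o2 (vH s1 ms1) hτ1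
    have c2 := gap_left hD hP hh hP0 hh0 F ms2 mt2 o4 (vH t2 mt2) hτ2
    have c3 : D * H / (t1 - s1) ≤ D * H / lA := div_le_div_of_nonneg_left (by positivity) hlA hA1
    have c4 : D * H / (t2 - s2) ≤ D * H / lA := div_le_div_of_nonneg_left (by positivity) hlA hA2
    have c5 : (ψ2 - ψ0) * (J t1 - J s2) ≤ D * (2 * ψ2 * H / lA) + 2 * ψ2 * τ := by
      have q1 : (ψ2 - ψ0) * (J t1 - J s2) ≤ (ψ2 - ψ0) * (2 * (D * H / lA + τ)) :=
        mul_le_mul_of_nonneg_left (by linarith) (by linarith)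
      have q2 : 0 ≤ ψ0 * (2 * (D * H / lA + τ)) := by positivity
      have q3 : ψ2 * (2 * (D * H / lA + τ)) = D * (2 * ψ2 * H / lA) + 2 * ψ2 * τ := by ring
      linarith
    have c6 : D * (2 * ψ2 * H / lA) ≤ D * (3 / 16 * ψ1 * R / l') :=
      mul_le_mul_of_nonneg_left hbr hD.le
    rw [hsplit]
    have : ψ0 * (0 - J t1) + ψ2 * (J t1 - J s2) + ψ0 * (J s2 - J t3) + ψ1 * (J t3 - 0) =
      (ψ2 - ψ0) * (J t1 - J s2) + (ψ1 - ψ0) * J t3 := by ring
    linarith

end Pool.Agent.R215.PM
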