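import Mathlib

set_option autoImplicit false
open MeasureTheory Filter Topology Set

/-! Second antiderivatives of even bumps. -/

namespace Pool.Agent.R215.PM

/-- first antiderivative -/
noncomputable def I1 (f : ℝ → ℝ) (x : ℝ) : ℝ := ∫ y in (-2:ℝ)..x, f y

/-- second antiderivative -/
noncomputable def I2 (f : ℝ → ℝ) (x : ℝ) : ℝ := ∫ y in (-2:ℝ)..x, I1 f y

/-- even nonnegative continuous bump supported in `[-2,2]` with integral `Φ` -/
structure IsBump (f : ℝ → ℝ) (Φ : ℝ) : Prop where
  cont : Continuous f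
  nonneg : ∀ x, 0 ≤ f x
  even : ∀ x, f (-x) = f x
  zero : ∀ x, 2 ≤ |x| → f x = 0
  int : ∫ x in (-2:ℝ)..2, f x = Φ

variable {f : ℝ → ℝ} {Φ : ℝ}

theorem I1_deriv (hf : IsBump f Φ) (x : ℝ) : HasDerivAt (I1 f) (f x) x :=
  hf.cont.integral_hasStrictDerivAt (-2) x |>.hasDerivAt

theorem I1_cont (hf : IsBump f Φ) : Continuous (I1 f) :=
  continuous_iff_continuousAt.2 fun x => (I1_deriv hf x).continuousAt

theorem I2_deriv (hf : IsBump f Φ) (x : ℝ) : HasDerivAt (I2 f) (I1 f x) x :=
  (I1_cont hf).integral_hasStrictDerivAt (-2) x |>.hasDerivAt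

theorem I1_of_le (hf : IsBump f Φ) {x : ℝ} (hx : x ≤ -2) : I1 f x = 0 := by
  unfold I1
  rw [intervalIntegral.integral_congr (g := fun _ => (0:ℝ))]
  · simp
  · intro y hy
    rw [uIcc_of_ge hx] at hy
    apply hf.zero
    rw [abs_of_nonpos (by linarith [hy.2])]
    linarith [hy.2]

theorem I1_of_ge (hf : IsBump f Φ) {x : ℝ} (hx : 2 ≤ x) : I1 f x = Φ := by
  unfold I1
  rw [← intervalIntegral.integral_add_adjacent_intervals (b := 2)
    (hf.cont.intervalIntegrable _ _) (hf.cont.intervalIntegrable _ _), hf.int]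
  rw [intervalIntegral.integral_congr (g := fun _ => (0:ℝ)) (a := 2)]
  · simp
  · intro y hy
    rw [uIcc_of_le hx] at hy
    apply hf.zero
    rw [abs_of_nonneg (by linarith [hy.1])]
    exact hy.1

theorem I1_mono (hf : IsBump f Φ) : Monotone (I1 f) := by
  intro x y hxy
  have : I1 f y = I1 f x + ∫ s in x..y, f s := by
    unfold I1
    rw [intervalIntegral.integral_add_adjacent_intervals (hf.cont.intervalIntegrable _ _)
      (hf.cont.intervalIntegrable _ _)]
  rw [this]
  have := intervalIntegral.integral_nonneg hxy (f := f) (μ := volume) fun s _ => hf.nonneg s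
  linarith

theorem I1_nonneg (hf : IsBump f Φ) (x : ℝ) : 0 ≤ I1 f x := by
  rcases le_total x (-2) with h | h
  · rw [I1_of_le hf h]
  · exact (I1_of_le hf le_rfl).symm.le.trans (I1_mono hf h)

theorem I1_le (hf : IsBump f Φ) (x : ℝ) : I1 f x ≤ Φ := by
  rcases le_total 2 x with h | h
  · rw [I1_of_ge hf h]
  · exact (I1_mono hf h).trans (I1_of_ge hf le_rfl).le

theorem Phi_nonneg (hf : IsBump f Φ) : 0 ≤ Φ := (I1_nonneg hf 0).trans (I1_le hf 0)

theorem I1_neg (hf : IsBump f Φ) (x : ℝ) : I1 f (-x) = Φ - I1 f x := by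
  have h1 : I1 f 2 = I1 f x + ∫ s in x..2, f s := by
    unfold I1
    rw [intervalIntegral.integral_add_adjacent_intervals (hf.cont.intervalIntegrable _ _)
      (hf.cont.intervalIntegrable _ _)]
  have h2 : ∫ s in (-2:ℝ)..(-x), f s = ∫ s in x..2, f s := by
    rw [← intervalIntegral.integral_comp_neg]
    exact intervalIntegral.integral_congr fun s _ => hf.even s
  rw [I1_of_ge hf le_rfl] at h1
  have h3 : I1 f (-x) = ∫ s in (-2:ℝ)..(-x), f s := rfl
  rw [h3, h2]
  linarith

theorem I2_two (hf : IsBump f Φ) : I2 f 2 = 2 * Φ := by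
  have h1 : ∫ s in (-2:ℝ)..2, I1 f (-s) = ∫ s in (-2:ℝ)..2, I1 f s := by
    rw [intervalIntegral.integral_comp_neg]
    norm_num
  have h2 : ∫ s in (-2:ℝ)..2, I1 f (-s) = ∫ s in (-2:ℝ)..2, (Φ - I1 f s) :=
    intervalIntegral.integral_congr fun s _ => I1_neg hf s
  rw [intervalIntegral.integral_sub intervalIntegrable_const
    ((I1_cont hf).intervalIntegrable _ _), intervalIntegral.integral_const, smul_eq_mul] at h2
  have h3 : I2 f 2 = ∫ s in (-2:ℝ)..2, I1 f s := rfl
  rw [h3]
  linarith

theorem I2_of_le (hf : IsBump f Φ) {x : ℝ} (hx : x ≤ -2) : I2 f x = 0 := by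
  unfold I2
  rw [intervalIntegral.integral_congr (g := fun _ => (0:ℝ))]
  · simp
  · intro y hy
    rw [uIcc_of_ge hx] at hy
    exact I1_of_le hf hy.2

theorem I2_add (hf : IsBump f Φ) (x y : ℝ) : I2 f y = I2 f x + ∫ s in x..y, I1 f s := by
  unfold I2
  rw [intervalIntegral.integral_add_adjacent_intervals ((I1_cont hf).intervalIntegrable _ _)
    ((I1_cont hf).intervalIntegrable _ _)]

theorem I2_of_ge (hf : IsBump f Φ) {x : ℝ} (hx : 2 ≤ x) : I2 f x = Φ * x := by
  rw [I2_add hf 2 x, I2_two hf]
  rw [intervalIntegral.integral_congr (g := fun _ => Φ)]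
  · rw [intervalIntegral.integral_const, smul_eq_mul]
    ring
  · intro y hy
    rw [uIcc_of_le hx] at hy
    exact I1_of_ge hf hy.1

theorem I2_mono (hf : IsBump f Φ) : Monotone (I2 f) := by
  intro x y hxy
  rw [I2_add hf x y]
  have := intervalIntegral.integral_nonneg hxy (f := I1 f) (μ := volume) fun s _ => I1_nonneg hf s
  linarith

theorem I2_nonneg (hf : IsBump f Φ) (x : ℝ) : 0 ≤ I2 f x := by
  rcases le_total x (-2) with h | h
  · rw [I2_of_le hf h]
  · exact (I2_of_le hf le_rfl).symm.le.trans (I2_mono hf h)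

theorem I2_ge (hf : IsBump f Φ) (x : ℝ) : Φ * x ≤ I2 f x := by
  rcases le_total 2 x with h | h
  · rw [I2_of_ge hf h]
  · have h1 := I2_add hf x 2
    rw [I2_two hf] at h1
    have h2 : ∫ s in x..2, I1 f s ≤ ∫ _s in x..2, Φ :=
      intervalIntegral.integral_mono_on h ((I1_cont hf).intervalIntegrable _ _)
        intervalIntegrable_const fun s _ => I1_le hf s
    rw [intervalIntegral.integral_const, smul_eq_mul] at h2
    linarith

theorem I2_le (hf : IsBump f Φ) {x : ℝ} (hx : x ≤ 2) : I2 f x ≤ 2 * Φ := by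
  rw [← I2_two hf]
  exact I2_mono hf hx

theorem I2_le' (hf : IsBump f Φ) {x : ℝ} (hx : -2 ≤ x) : I2 f x ≤ Φ * (x + 4) := by
  have h0 := Phi_nonneg hf
  rcases le_total x 2 with h | h
  · rcases le_total x (-2) with h' | h'
    · rw [I2_of_le hf h']
      have : x = -2 := le_antisymm h' hx
      rw [this]
      linarith
    · have h1 := I2_add hf (-2) x
      rw [I2_of_le hf le_rfl] at h1
      have h2 : ∫ s in (-2)..x, I1 f s ≤ ∫ _s in (-2)..x, Φ :=
        intervalIntegral.integral_mono_on h' ((I1_cont hf).intervalIntegrable _ _)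
          intervalIntegrable_const fun s _ => I1_le hf s
      rw [intervalIntegral.integral_const, smul_eq_mul] at h2
      linarith
  · rw [I2_of_ge hf h]
    linarith

/-- the narrow bump -/
noncomputable def bt : ContDiffBump (0:ℝ) := ⟨1/2, 1, by norm_num, by norm_num⟩

/-- normalised even bump supported in `[-1,1]` -/
noncomputable def th (x : ℝ) : ℝ := bt.normed volume x

/-- the wide bump, equal to `1` on `[-1,1]` and supported in `[-2,2]` -/
noncomputable def bc : ContDiffBump (0:ℝ) := ⟨1, 2, by norm_num, by norm_num⟩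

/-- cutoff -/
noncomputable def ch (x : ℝ) : ℝ := bc x

theorem th_smooth : ContDiff ℝ (⊤ : ℕ∞) th := bt.contDiff_normed

theorem ch_smooth : ContDiff ℝ (⊤ : ℕ∞) ch := bc.contDiff

theorem th_nonneg (x : ℝ) : 0 ≤ th x := bt.nonneg_normed x

theorem ch_nonneg (x : ℝ) : 0 ≤ ch x := bc.nonneg

theorem ch_le_one (x : ℝ) : ch x ≤ 1 := bc.le_one

theorem th_even (x : ℝ) : th (-x) = th x := bt.normed_neg x

theorem ch_even (x : ℝ) : ch (-x) = ch x := bc.neg x

theorem th_zero {x : ℝ} (hx : 1 ≤ |x|) : th x = 0 := by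
  have h1 : x ∉ Function.support (bt.normed volume) := by
    rw [bt.support_normed_eq]
    simp only [Metric.mem_ball, dist_zero_right, Real.norm_eq_abs, not_lt]
    exact hx
  exact Function.notMem_support.1 h1

theorem ch_zero {x : ℝ} (hx : 2 ≤ |x|) : ch x = 0 := by
  apply bc.zero_of_le_dist
  rw [dist_zero_right, Real.norm_eq_abs]
  exact hx

theorem ch_one {x : ℝ} (hx : |x| ≤ 1) : ch x = 1 := by
  apply bc.one_of_mem_closedBall
  rw [Metric.mem_closedBall, dist_zero_right, Real.norm_eq_abs]
  exact hx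

theorem th_int_core : ∫ x in (-1:ℝ)..1, th x = 1 := by
  have h1 := bt.integral_normed (μ := (volume : Measure ℝ))
  have h2 : ∫ x in (-1:ℝ)..1, th x = ∫ x, th x := by
    apply intervalIntegral.integral_eq_integral_of_support_subset
    intro x hx
    by_contra hc
    apply hx
    apply th_zero
    rw [mem_Ioc, not_and_or, not_lt, not_le] at hc
    rcases hc with hc | hc
    · rw [abs_of_nonpos (by linarith)]
      linarith
    · rw [abs_of_nonneg (by linarith)]
      linarith
  rw [h2]
  exact h1

theorem th_cont : Continuous th := th_smooth.continuous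

theorem ch_cont : Continuous ch := ch_smooth.continuous

theorem th_int : ∫ x in (-2:ℝ)..2, th x = 1 := by
  have h1 := bt.integral_normed (μ := (volume : Measure ℝ))
  have h2 : ∫ x in (-2:ℝ)..2, th x = ∫ x, th x := by
    apply intervalIntegral.integral_eq_integral_of_support_subset
    intro x hx
    by_contra hc
    apply hx
    apply th_zero
    rw [mem_Ioc, not_and_or, not_lt, not_le] at hc
    rcases hc with hc | hc
    · rw [abs_of_nonpos (by linarith)]
      linarith
    · rw [abs_of_nonneg (by linarith)]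
      linarith
  rw [h2]
  exact h1

/-- the integral of the cutoff -/
noncomputable def cc : ℝ := ∫ x in (-2:ℝ)..2, ch x

theorem cc_nonneg : 0 ≤ cc := intervalIntegral.integral_nonneg (by norm_num) fun x _ => ch_nonneg x

theorem cc_le : cc ≤ 4 := by
  have : cc ≤ ∫ _x in (-2:ℝ)..2, (1:ℝ) :=
    intervalIntegral.integral_mono_on (by norm_num) (ch_cont.intervalIntegrable _ _)
      intervalIntegrable_const fun x _ => ch_le_one x
  rw [intervalIntegral.integral_const, smul_eq_mul] at this
  linarith

/-- bump with mass `F` -/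
noncomputable def fb (D qi q0 : ℝ) (x : ℝ) : ℝ := D * (qi * th x + q0 * ch x)

theorem fb_isBump {D qi q0 F : ℝ} (hD : 0 < D) (hqi : 0 ≤ qi) (hq0 : 0 ≤ q0)
    (hF : D * (qi + q0 * cc) = F) : IsBump (fb D qi q0) F where
  cont := by
    unfold fb
    have := th_cont
    have := ch_cont
    fun_prop
  nonneg x := by
    unfold fb
    have := th_nonneg x
    have := ch_nonneg x
    positivity
  even x := by
    unfold fb
    rw [th_even, ch_even]
  zero x hx := by
    unfold fb
    rw [th_zero (by linarith), ch_zero hx]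
    ring
  int := by
    unfold fb
    have h1 : IntervalIntegrable (fun x => qi * th x) volume (-2) 2 :=
      (continuous_const.mul th_cont).intervalIntegrable _ _
    have h2 : IntervalIntegrable (fun x => q0 * ch x) volume (-2) 2 :=
      (continuous_const.mul ch_cont).intervalIntegrable _ _
    rw [intervalIntegral.integral_const_mul, intervalIntegral.integral_add h1 h2,
      intervalIntegral.integral_const_mul, intervalIntegral.integral_const_mul, th_int, mul_one]
    exact hF

end Pool.Agent.R215.PM
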