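import Pool.Agent.R215.PM.Bump

set_option autoImplicit false
set_option exponentiation.threshold 3000
open MeasureTheory Filter Topology Set

/-! The explicit habitat: four patches on an interval. -/

namespace Pool.Agent.R215.PM

noncomputable def a1 : ℝ := 2
noncomputable def a2 : ℝ := 2 + (2 ^ 324 - 2 ^ 261)
noncomputable def b2 : ℝ := 2 + (2 ^ 324 - 2 ^ 261) + (2 ^ 324 - 2 ^ 195)
noncomputable def b1 : ℝ := 2 + (2 ^ 324 - 2 ^ 261) + (2 ^ 324 - 2 ^ 195) + (2 ^ 218 - 2 ^ 154)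
noncomputable def LL : ℝ := 4 + (2 ^ 324 - 2 ^ 261) + (2 ^ 324 - 2 ^ 195) + (2 ^ 218 - 2 ^ 154)

noncomputable def q0 : ℝ := 1 / 2 ^ 2000
noncomputable def D1 : ℝ := 3 * 2 ^ 320
noncomputable def D2 : ℝ := 2 ^ 256
noncomputable def D3 : ℝ := 2 ^ 128 - 2
noncomputable def D4 : ℝ := 2 ^ 144
noncomputable def F1 : ℝ := 1 / 2 ^ 4
noncomputable def F2 : ℝ := 1 / 2 ^ 4 - 1 / 2 ^ 67
noncomputable def F3 : ℝ := 1 / 2 ^ 67 + 1 / 2 ^ 26
noncomputable def F4 : ℝ := 1 / 2 ^ 26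
noncomputable def q1 : ℝ := F1 / D1 - q0 * cc
noncomputable def q2 : ℝ := F2 / D2 - q0 * cc
noncomputable def q3 : ℝ := F3 / D3 - q0 * cc
noncomputable def q4 : ℝ := F4 / D4 - q0 * cc

theorem q0_pos : 0 < q0 := by unfold q0; positivity

theorem q0cc_nonneg : 0 ≤ q0 * cc := mul_nonneg q0_pos.le cc_nonneg

theorem q0cc_le : q0 * cc ≤ 1 / 2 ^ 1998 := by
  have h1 : q0 * cc ≤ q0 * 4 := mul_le_mul_of_nonneg_left cc_le q0_pos.le
  have h2 : q0 * 4 = 1 / 2 ^ 1998 := by unfold q0; norm_num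
  linarith

theorem q1_le : q1 ≤ 1 / 2 ^ 325 := by
  have := q0cc_nonneg
  have h : F1 / D1 ≤ 1 / 2 ^ 325 := by unfold F1 D1; norm_num
  unfold q1; linarith

theorem q2_le : q2 ≤ 1 / 2 ^ 260 := by
  have := q0cc_nonneg
  have h : F2 / D2 ≤ 1 / 2 ^ 260 := by unfold F2 D2; norm_num
  unfold q2; linarith

theorem q3_le : q3 ≤ 1 / 2 ^ 153 := by
  have := q0cc_nonneg
  have h : F3 / D3 ≤ 1 / 2 ^ 153 := by unfold F3 D3; norm_num
  unfold q3; linarith

theorem q4_le : q4 ≤ 1 / 2 ^ 170 := by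
  have := q0cc_nonneg
  have h : F4 / D4 ≤ 1 / 2 ^ 170 := by unfold F4 D4; norm_num
  unfold q4; linarith

theorem q1_ge : 1 / 2 ^ 326 ≤ q1 := by
  have := q0cc_le
  have h : 1 / 2 ^ 326 ≤ F1 / D1 - 1 / 2 ^ 1998 := by unfold F1 D1; norm_num
  unfold q1; linarith

theorem q2_ge : 15 / 2 ^ 264 ≤ q2 := by
  have := q0cc_le
  have h : 15 / 2 ^ 264 ≤ F2 / D2 - 1 / 2 ^ 1998 := by unfold F2 D2; norm_num
  unfold q2; linarith

theorem q3_ge : 1 / 2 ^ 154 ≤ q3 := by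
  have := q0cc_le
  have h : 1 / 2 ^ 154 ≤ F3 / D3 - 1 / 2 ^ 1998 := by unfold F3 D3; norm_num
  unfold q3; linarith

theorem q4_ge : 1 / 2 ^ 171 ≤ q4 := by
  have := q0cc_le
  have h : 1 / 2 ^ 171 ≤ F4 / D4 - 1 / 2 ^ 1998 := by unfold F4 D4; norm_num
  unfold q4; linarith

theorem q1_nn : 0 ≤ q1 := le_trans (by positivity) q1_ge
theorem q2_nn : 0 ≤ q2 := le_trans (by positivity) q2_ge
theorem q3_nn : 0 ≤ q3 := le_trans (by positivity) q3_ge
theorem q4_nn : 0 ≤ q4 := le_trans (by positivity) q4_ge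

theorem D1_pos : 0 < D1 := by unfold D1; positivity
theorem D2_pos : 0 < D2 := by unfold D2; positivity
theorem D3_pos : 0 < D3 := by unfold D3; norm_num
theorem D4_pos : 0 < D4 := by unfold D4; positivity

theorem bump1 : IsBump (fb D1 q1 q0) F1 :=
  fb_isBump D1_pos q1_nn q0_pos.le (by
    unfold q1
    rw [sub_add_cancel, mul_div_cancel₀ _ D1_pos.ne'])

theorem bump2 : IsBump (fb D2 q2 q0) F2 :=
  fb_isBump D2_pos q2_nn q0_pos.le (by
    unfold q2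
    rw [sub_add_cancel, mul_div_cancel₀ _ D2_pos.ne'])

theorem bump3 : IsBump (fb D3 q3 q0) F3 :=
  fb_isBump D3_pos q3_nn q0_pos.le (by
    unfold q3
    rw [sub_add_cancel, mul_div_cancel₀ _ D3_pos.ne'])

theorem bump4 : IsBump (fb D4 q4 q0) F4 :=
  fb_isBump D4_pos q4_nn q0_pos.le (by
    unfold q4
    rw [sub_add_cancel, mul_div_cancel₀ _ D4_pos.ne'])

/-- the explicit level -/
noncomputable def ww (x : ℝ) : ℝ :=
  2 ^ 320 - I2 (fb D1 q1 q0) (x - a1) + I2 (fb D2 q2 q0) (x - a2) +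
    I2 (fb D3 q3 q0) (x - b2) - I2 (fb D4 q4 q0) (x - b1)

/-- its derivative -/
noncomputable def ww1 (x : ℝ) : ℝ :=
  -I1 (fb D1 q1 q0) (x - a1) + I1 (fb D2 q2 q0) (x - a2) +
    I1 (fb D3 q3 q0) (x - b2) - I1 (fb D4 q4 q0) (x - b1)

/-- its second derivative -/
noncomputable def ww2 (x : ℝ) : ℝ :=
  -fb D1 q1 q0 (x - a1) + fb D2 q2 q0 (x - a2) +
    fb D3 q3 q0 (x - b2) - fb D4 q4 q0 (x - b1)

/-- the ratio `K / P` -/
noncomputable def hh (x : ℝ) : ℝ :=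
  ww x + D1 * ch (x - a1) - D2 * ch (x - a2) - D3 * ch (x - b2) + D4 * ch (x - b1)

/-- the weight -/
noncomputable def qq (x : ℝ) : ℝ :=
  q0 + q1 * th (x - a1) + q2 * th (x - a2) + q3 * th (x - b2) + q4 * th (x - b1)

theorem ww_deriv (x : ℝ) : HasDerivAt ww (ww1 x) x := by
  have e (c : ℝ) : HasDerivAt (fun y : ℝ => y - c) 1 x := (hasDerivAt_id x).sub_const c
  have h1 := (I2_deriv bump1 (x - a1)).comp x (e a1)
  have h2 := (I2_deriv bump2 (x - a2)).comp x (e a2)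
  have h3 := (I2_deriv bump3 (x - b2)).comp x (e b2)
  have h4 := (I2_deriv bump4 (x - b1)).comp x (e b1)
  have h := (((h1.const_sub (2 ^ 320)).add h2).add h3).sub h4
  refine h.congr_deriv ?_
  unfold ww1
  ring

theorem ww1_deriv (x : ℝ) : HasDerivAt ww1 (ww2 x) x := by
  have e (c : ℝ) : HasDerivAt (fun y : ℝ => y - c) 1 x := (hasDerivAt_id x).sub_const c
  have h1 := (I1_deriv bump1 (x - a1)).comp x (e a1)
  have h2 := (I1_deriv bump2 (x - a2)).comp x (e a2)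
  have h3 := (I1_deriv bump3 (x - b2)).comp x (e b2)
  have h4 := (I1_deriv bump4 (x - b1)).comp x (e b1)
  have h := ((h1.neg.add h2).add h3).sub h4
  refine h.congr_deriv ?_
  unfold ww2
  ring

/-! ### The four regions -/

theorem pos12 : a1 + 4 ≤ a2 := by unfold a1 a2; norm_num
theorem pos23 : a2 + 4 ≤ b2 := by unfold a2 b2; norm_num
theorem pos34 : b2 + 4 ≤ b1 := by unfold b2 b1; norm_num

theorem w_reg1 {x : ℝ} (hx : x ≤ a2 - 2) : ww x = 2 ^ 320 - I2 (fb D1 q1 q0) (x - a1) := by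
  unfold ww
  have := pos23
  have := pos34
  rw [I2_of_le bump2 (by linarith), I2_of_le bump3 (by linarith), I2_of_le bump4 (by linarith)]
  ring

theorem w_reg2 {x : ℝ} (hx1 : a2 - 2 ≤ x) (hx : x ≤ b2 - 2) :
    ww x = 2 ^ 320 - F1 * (x - a1) + I2 (fb D2 q2 q0) (x - a2) := by
  unfold ww
  have := pos12
  have := pos34
  rw [I2_of_ge bump1 (by linarith), I2_of_le bump3 (by linarith), I2_of_le bump4 (by linarith)]
  ring

theorem w_reg3 {x : ℝ} (hx1 : b2 - 2 ≤ x) (hx : x ≤ b1 - 2) :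
    ww x = 2 ^ 320 - F1 * (x - a1) + F2 * (x - a2) + I2 (fb D3 q3 q0) (x - b2) := by
  unfold ww
  have := pos12
  have := pos23
  rw [I2_of_ge bump1 (by linarith), I2_of_ge bump2 (by linarith), I2_of_le bump4 (by linarith)]
  ring

theorem w_reg4 {x : ℝ} (hx1 : b1 - 2 ≤ x) :
    ww x = 2 ^ 320 - F1 * (x - a1) + F2 * (x - a2) + F3 * (x - b2) -
      I2 (fb D4 q4 q0) (x - b1) := by
  unfold ww
  have := pos12
  have := pos23
  have := pos34
  rw [I2_of_ge bump1 (by linarith), I2_of_ge bump2 (by linarith), I2_of_ge bump3 (by linarith)]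

theorem w1 {x : ℝ} (hx : x ≤ a2 - 2) : 2 ^ 257 ≤ ww x ∧ ww x ≤ 2 ^ 320 := by
  rw [w_reg1 hx]
  have h1 := I2_nonneg bump1 (x - a1)
  refine ⟨?_, by linarith⟩
  rcases le_total (x - a1) 2 with h | h
  · have := I2_le bump1 h
    unfold F1 at this
    norm_num at this ⊢
    linarith
  · rw [I2_of_ge bump1 h]
    unfold F1 a1
    unfold a2 at hx
    norm_num at hx ⊢
    linarith

theorem w1c {x : ℝ} (hx : x ≤ a1 + 2) : 2 ^ 320 - 1 ≤ ww x ∧ ww x ≤ 2 ^ 320 := by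
  have := pos12
  rw [w_reg1 (by linarith)]
  have h1 := I2_nonneg bump1 (x - a1)
  have h2 := I2_le bump1 (x := x - a1) (by linarith)
  unfold F1 at h2
  norm_num at h2 ⊢
  constructor <;> linarith

theorem w2 {x : ℝ} (hx1 : a2 - 2 ≤ x) (hx : x ≤ b2 - 2) : 2 ^ 128 ≤ ww x ∧ ww x ≤ 2 ^ 257 + 1 := by
  rw [w_reg2 hx1 hx]
  have h1 := I2_nonneg bump2 (x - a2)
  have h2 := I2_ge bump2 (x - a2)
  have h3 : I2 (fb D2 q2 q0) (x - a2) ≤ 2 * F2 ∨ I2 (fb D2 q2 q0) (x - a2) = F2 * (x - a2) := by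
    rcases le_total (x - a2) 2 with h | h
    · left; exact I2_le bump2 h
    · right; exact I2_of_ge bump2 h
  set I := I2 (fb D2 q2 q0) (x - a2)
  unfold F1 a1
  unfold F2 a2 at h2 h3
  unfold a2 at hx1
  unfold b2 at hx
  norm_num at h1 h2 h3 hx hx1 ⊢
  constructor
  · linarith
  · rcases h3 with h3 | h3 <;> linarith

theorem w2c {x : ℝ} (hx1 : a2 - 2 ≤ x) (hx : x ≤ a2 + 2) :
    2 ^ 257 - 1 ≤ ww x ∧ ww x ≤ 2 ^ 257 + 1 := by
  have := pos23
  rw [w_reg2 hx1 (by linarith)]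
  have h1 := I2_nonneg bump2 (x - a2)
  have h3 := I2_le bump2 (x := x - a2) (by linarith)
  set I := I2 (fb D2 q2 q0) (x - a2)
  unfold F1 a1
  unfold F2 at h3
  unfold a2 at hx1 hx
  norm_num at h1 h3 hx hx1 ⊢
  constructor <;> linarith

theorem w3 {x : ℝ} (hx1 : b2 - 2 ≤ x) (hx : x ≤ b1 - 2) : 2 ^ 128 ≤ ww x ∧ ww x ≤ 2 ^ 192 + 1 := by
  rw [w_reg3 hx1 hx]
  have h1 := I2_nonneg bump3 (x - b2)
  have h2 := I2_ge bump3 (x - b2)
  have h3 : I2 (fb D3 q3 q0) (x - b2) ≤ 2 * F3 ∨ I2 (fb D3 q3 q0) (x - b2) = F3 * (x - b2) := by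
    rcases le_total (x - b2) 2 with h | h
    · left; exact I2_le bump3 h
    · right; exact I2_of_ge bump3 h
  set I := I2 (fb D3 q3 q0) (x - b2)
  unfold F1 a1 F2 a2
  unfold F3 b2 at h2 h3
  unfold b2 at hx1
  unfold b1 at hx
  norm_num at h1 h2 h3 hx hx1 ⊢
  constructor
  · rcases le_total x (b2) with h | h
    · unfold b2 at h
      norm_num at h
      linarith
    · unfold b2 at h
      norm_num at h
      linarith
  · rcases h3 with h3 | h3 <;> linarith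

theorem w3c {x : ℝ} (hx1 : b2 - 2 ≤ x) (hx : x ≤ b2 + 2) :
    2 ^ 128 ≤ ww x ∧ ww x ≤ 2 ^ 128 + 1 := by
  have := pos34
  refine ⟨(w3 hx1 (by linarith)).1, ?_⟩
  rw [w_reg3 hx1 (by linarith)]
  have h3 := I2_le bump3 (x := x - b2) (by linarith)
  set I := I2 (fb D3 q3 q0) (x - b2)
  unfold F1 a1 F2 a2
  unfold F3 at h3
  unfold b2 at hx1 hx
  norm_num at h3 hx hx1 ⊢
  linarith

theorem w4 {x : ℝ} (hx1 : b1 - 2 ≤ x) : 2 ^ 192 - 1 ≤ ww x ∧ ww x ≤ 2 ^ 192 := by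
  rw [w_reg4 hx1]
  have h1 := I2_nonneg bump4 (x - b1)
  have h2 := I2_ge bump4 (x - b1)
  have h3 := I2_le' bump4 (x := x - b1) (by linarith)
  set I := I2 (fb D4 q4 q0) (x - b1)
  unfold F1 a1 F2 a2 F3 b2
  unfold F4 b1 at h2 h3
  unfold b1 at hx1
  norm_num at h1 h2 h3 hx1 ⊢
  constructor
  · linarith
  · linarith

end Pool.Agent.R215.PM
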