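import Pool.Agent.R215.PM.Reg
import Pool.Agent.R215.PM.Bound

set_option autoImplicit false
set_option exponentiation.threshold 3000
open MeasureTheory Filter Topology Set

/-! Estimates of the integrals over the four regions. -/

namespace Pool.Agent.R215.PM

theorem th_bump : IsBump th 1 where
  cont := th_cont
  nonneg := th_nonneg
  even := th_even
  zero x hx := th_zero (by linarith)
  int := th_int

theorem th_shift_le {a b : ℝ} (x0 : ℝ) : ∫ x in a..b, th (x - x0) ≤ 1 := by
  rw [intervalIntegral.integral_comp_sub_right]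
  have h1 : I1 th (b - x0) = I1 th (a - x0) + ∫ s in (a - x0)..(b - x0), th s := by
    unfold I1
    rw [intervalIntegral.integral_add_adjacent_intervals (th_cont.intervalIntegrable _ _)
      (th_cont.intervalIntegrable _ _)]
  have h2 := I1_le th_bump (b - x0)
  have h3 := I1_nonneg th_bump (a - x0)
  linarith

theorem th_shift_eq {a b x0 : ℝ} (h1 : a ≤ x0 - 1) (h2 : x0 + 1 ≤ b) :
    ∫ x in a..b, th (x - x0) = 1 := by
  rw [intervalIntegral.integral_comp_sub_right]
  have h3 : ∫ x in (a - x0)..(b - x0), th x = ∫ x, th x := by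
    apply intervalIntegral.integral_eq_integral_of_support_subset
    intro x hx
    by_contra hc
    apply hx
    apply th_zero
    rw [mem_Ioc, not_and_or, not_lt, not_le] at hc
    rcases hc with hc | hc
    · rw [abs_of_nonpos (by linarith)]
      linarith
    · rw [abs_of_nonneg (by linarith)]
      linarith
  rw [h3]
  exact bt.integral_normed (μ := (volume : Measure ℝ))

theorem th_dich (x x0 : ℝ) : |x - x0| ≤ 1 ∨ th (x - x0) = 0 := by
  rcases le_total |x - x0| 1 with h | h
  · exact Or.inl h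
  · exact Or.inr (th_zero h)

theorem th_shift_cont (x0 : ℝ) : Continuous fun x => th (x - x0) := by
  have := th_cont
  fun_prop

theorem up_int {a b x0 qi N M : ℝ} {G F : ℝ → ℝ} (hab : a ≤ b) (hG : Continuous G)
    (hqi : 0 ≤ qi) (hN0 : 0 ≤ N) (hM : ∀ x ∈ Icc a b, F x ≤ M)
    (hN : ∀ x ∈ Icc a b, |x - x0| ≤ 1 → F x ≤ N)
    (hGF : ∀ x ∈ Icc a b, G x = (q0 + qi * th (x - x0)) * F x) :
    ∫ x in a..b, G x ≤ q0 * M * (b - a) + qi * N := by
  have hc := th_shift_cont x0
  have h1 : ∫ x in a..b, G x ≤ ∫ x in a..b, (q0 * M + qi * N * th (x - x0)) := by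
    refine intervalIntegral.integral_mono_on hab (hG.intervalIntegrable _ _)
      ((continuous_const.add (continuous_const.mul hc)).intervalIntegrable _ _) fun x hx => ?_
    rw [hGF x hx]
    have k1 : q0 * F x ≤ q0 * M := mul_le_mul_of_nonneg_left (hM x hx) q0_pos.le
    have k2 : qi * th (x - x0) * F x ≤ qi * N * th (x - x0) := by
      rcases th_dich x x0 with h | h
      · have := mul_le_mul_of_nonneg_left (hN x hx h) (mul_nonneg hqi (th_nonneg (x - x0)))
        linarith
      · rw [h]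
        simp
    linarith
  have h2 : IntervalIntegrable (fun x => qi * N * th (x - x0)) volume a b :=
    (continuous_const.mul hc).intervalIntegrable _ _
  rw [intervalIntegral.integral_add intervalIntegrable_const h2,
    intervalIntegral.integral_const, smul_eq_mul,
    intervalIntegral.integral_const_mul (qi * N)] at h1
  have h3 : qi * N * ∫ x in a..b, th (x - x0) ≤ qi * N * 1 :=
    mul_le_mul_of_nonneg_left (th_shift_le x0) (mul_nonneg hqi hN0)
  linarith

theorem lo_int {a b x0 qi N M : ℝ} {G F : ℝ → ℝ} (ha : a ≤ x0 - 1) (hb : x0 + 1 ≤ b)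
    (hG : Continuous G) (hqi : 0 ≤ qi) (hM : ∀ x ∈ Icc a b, -M ≤ F x)
    (hN : ∀ x ∈ Icc a b, |x - x0| ≤ 1 → N ≤ F x)
    (hGF : ∀ x ∈ Icc a b, G x = (q0 + qi * th (x - x0)) * F x) :
    -(q0 * M * (b - a)) + qi * N ≤ ∫ x in a..b, G x := by
  have hc := th_shift_cont x0
  have h1 : ∫ x in a..b, (-(q0 * M) + qi * N * th (x - x0)) ≤ ∫ x in a..b, G x := by
    refine intervalIntegral.integral_mono_on (by linarith)
      ((continuous_const.add (continuous_const.mul hc)).intervalIntegrable _ _)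
      (hG.intervalIntegrable _ _) fun x hx => ?_
    rw [hGF x hx]
    have k1 : q0 * (-M) ≤ q0 * F x := mul_le_mul_of_nonneg_left (hM x hx) q0_pos.le
    have k2 : qi * N * th (x - x0) ≤ qi * th (x - x0) * F x := by
      rcases th_dich x x0 with h | h
      · have := mul_le_mul_of_nonneg_left (hN x hx h) (mul_nonneg hqi (th_nonneg (x - x0)))
        linarith
      · rw [h]
        simp
    linarith
  have h2 : IntervalIntegrable (fun x => qi * N * th (x - x0)) volume a b :=
    (continuous_const.mul hc).intervalIntegrable _ _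
  rw [intervalIntegral.integral_add intervalIntegrable_const h2,
    intervalIntegral.integral_const_mul, intervalIntegral.integral_const, smul_eq_mul,
    th_shift_eq ha hb] at h1
  linarith

/-- the background contribution is negligible -/
theorem bg {a b : ℝ} (ha : 0 ≤ a) (hb : b ≤ LL) : q0 * 2 ^ 1200 * (b - a) ≤ 1 / 2 ^ 400 := by
  have h1 : q0 * 2 ^ 1200 * (b - a) ≤ q0 * 2 ^ 1200 * LL :=
    mul_le_mul_of_nonneg_left (by linarith) (by have := q0_pos; positivity)
  have h2 : q0 * 2 ^ 1200 * LL ≤ 1 / 2 ^ 400 := by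
    unfold q0 LL
    norm_num
  linarith

/-! ### Pointwise formulas -/

theorem cap_eq (x : ℝ) : cap PP hh x = qq x * (gg x ^ 9 / (4 * ww x)) := by
  unfold cap PP
  rw [← g_sq, ← g_four]
  have := w_pos x
  field_simp

theorem cost_eq {ψ : ℝ} (hψ : 0 < ψ) (x : ℝ) :
    cost PP hh ψ x = qq x * (gg x ^ 5 / (4 * ψ * ww x) * (1 - ψ * gg x ^ 2) ^ 2) := by
  unfold cost PP
  rw [← g_sq]
  have := w_pos x
  field_simp

theorem rat_eq (x : ℝ) : PP x / Real.sqrt (hh x) = qq x * (gg x / ww x) := by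
  unfold PP
  rw [← g_sq]
  have := w_pos x
  have := g_pos x
  field_simp

theorem gain_eq (x : ℝ) : PP x * (ww x - hh x) = qq x * (gg x ^ 3 * (ww x - hh x) / ww x) := by
  unfold PP
  have := w_pos x
  field_simp

theorem capF_le {x c ω : ℝ} (hc : gg x ≤ c) (hω : 0 < ω) (hw : ω ≤ ww x) :
    gg x ^ 9 / (4 * ww x) ≤ c ^ 9 / (4 * ω) := by
  have h0 := g_pos x
  have hc0 : 0 < c := lt_of_lt_of_le h0 hc
  apply div_le_div₀ (by positivity) (pow_le_pow_left₀ h0.le hc 9) (by positivity) (by linarith)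

theorem costF_le {x c ω ψ δ : ℝ} (hψ : 0 < ψ) (hc : gg x ≤ c) (hω : 0 < ω) (hw : ω ≤ ww x)
    (hδ : |1 - ψ * gg x ^ 2| ≤ δ) :
    gg x ^ 5 / (4 * ψ * ww x) * (1 - ψ * gg x ^ 2) ^ 2 ≤ c ^ 5 / (4 * ψ * ω) * δ ^ 2 := by
  have h0 := g_pos x
  have hc0 : 0 < c := lt_of_lt_of_le h0 hc
  have h1 : gg x ^ 5 / (4 * ψ * ww x) ≤ c ^ 5 / (4 * ψ * ω) := by
    apply div_le_div₀ (by positivity) (pow_le_pow_left₀ h0.le hc 5) (by positivity)
    exact mul_le_mul_of_nonneg_left hw (by positivity)
  have h2 : (1 - ψ * gg x ^ 2) ^ 2 ≤ δ ^ 2 := by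
    rw [← sq_abs]
    exact pow_le_pow_left₀ (abs_nonneg _) hδ 2
  have h3 : 0 ≤ c ^ 5 / (4 * ψ * ω) := by positivity
  exact mul_le_mul h1 h2 (sq_nonneg _) h3

theorem g_all (x : ℝ) : gg x ≤ 2 ^ 81 := by
  apply g_le (by positivity)
  have := (h_bounds x).2
  norm_num at this ⊢
  linarith

theorem cap_bg (x : ℝ) : gg x ^ 9 / (4 * ww x) ≤ 2 ^ 1200 := by
  refine (capF_le (g_all x) one_pos (w_bounds x).1).trans ?_
  norm_num

theorem cost_bg {ψ : ℝ} (h1 : 1 / 2 ^ 161 ≤ ψ) (h2 : ψ ≤ 1) (x : ℝ) :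
    gg x ^ 5 / (4 * ψ * ww x) * (1 - ψ * gg x ^ 2) ^ 2 ≤ 2 ^ 1200 := by
  have hψ : 0 < ψ := lt_of_lt_of_le (by positivity) h1
  have h3 : |1 - ψ * gg x ^ 2| ≤ 2 ^ 163 := by
    have i1 : gg x ^ 2 ≤ (2 ^ 81) ^ 2 := pow_le_pow_left₀ (g_pos x).le (g_all x) 2
    have i2 : ψ * gg x ^ 2 ≤ 1 * (2 ^ 81) ^ 2 := mul_le_mul h2 i1 (sq_nonneg _) zero_le_one
    have i3 : 0 ≤ ψ * gg x ^ 2 := by positivity
    rw [abs_le]
    norm_num at i2 ⊢
    constructor <;> linarith
  refine (costF_le hψ (g_all x) one_pos (w_bounds x).1 h3).trans ?_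
  have h4 : ((2:ℝ) ^ 81) ^ 5 / (4 * ψ * 1) * (2 ^ 163) ^ 2 ≤
      (2 ^ 81) ^ 5 / (4 * (1 / 2 ^ 161) * 1) * (2 ^ 163) ^ 2 := by
    apply mul_le_mul_of_nonneg_right _ (by positivity)
    apply div_le_div_of_nonneg_left (by positivity) (by positivity)
    linarith
  refine h4.trans ?_
  norm_num

theorem gain_bg (x : ℝ) : -2 ^ 1200 ≤ gg x ^ 3 * (ww x - hh x) / ww x := by
  rw [le_div_iff₀ (w_pos x)]
  have h1 := (w_bounds x).1
  have h2 := (h_bounds x).2
  have h3 : gg x ^ 3 ≤ (2 ^ 81) ^ 3 := pow_le_pow_left₀ (g_pos x).le (g_all x) 3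
  have h4 : 0 < gg x ^ 3 := pow_pos (g_pos x) 3
  have h5 : gg x ^ 3 * (hh x - ww x) ≤ (2 ^ 81) ^ 3 * 2 ^ 322 := by
    calc gg x ^ 3 * (hh x - ww x) ≤ gg x ^ 3 * 2 ^ 322 :=
          mul_le_mul_of_nonneg_left (by linarith) h4.le
      _ ≤ _ := mul_le_mul_of_nonneg_right h3 (by positivity)
  have h6 : (2:ℝ) ^ 1200 * 1 ≤ 2 ^ 1200 * ww x := mul_le_mul_of_nonneg_left h1 (by positivity)
  norm_num at h5 h6 ⊢
  linarith

theorem hh_cont : Continuous hh := hh_cd.continuous
theorem PP_cont : Continuous PP := PP_cd.continuous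
theorem ww_cont : Continuous ww := ww_cd.continuous

theorem cap_cont : Continuous (cap PP hh) := cont_cap PP_cont hh_cont

/-! ### the bounds for `cap` -/

theorem LL_eq : LL = b1 + 2 := by unfold LL b1; ring
theorem a1_eq : a1 - 2 = 0 := by unfold a1; norm_num

theorem gap1 : ∫ x in (a1 + 2)..(a2 - 2), cap PP hh x ≤ 1 / 2 ^ 400 := by
  have p1 := pos12
  have p2 := pos23
  have p3 := pos34
  have p4 := LL_eq
  have p5 := a1_eq
  have h := up_int (a := a1 + 2) (b := a2 - 2) (x0 := a1) (qi := 0) (N := 0) (M := 2 ^ 1200)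
    (G := cap PP hh) (F := fun x => gg x ^ 9 / (4 * ww x)) (by linarith) cap_cont le_rfl le_rfl
    (fun x _ => cap_bg x) (fun x hx hx' => by
      exfalso
      rw [abs_le] at hx'
      linarith [hx.1]) (fun x hx => by
      rw [cap_eq, qr1 hx.2, th_zr (by linarith [hx.1])]
      ring)
  have := bg (a := a1 + 2) (b := a2 - 2) (by linarith) (by linarith)
  linarith

theorem gap2 : ∫ x in (a2 + 2)..(b2 - 2), cap PP hh x ≤ 1 / 2 ^ 400 := by
  have p1 := pos12
  have p2 := pos23
  have p3 := pos34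
  have p4 := LL_eq
  have p5 := a1_eq
  have h := up_int (a := a2 + 2) (b := b2 - 2) (x0 := a2) (qi := 0) (N := 0) (M := 2 ^ 1200)
    (G := cap PP hh) (F := fun x => gg x ^ 9 / (4 * ww x)) (by linarith) cap_cont le_rfl le_rfl
    (fun x _ => cap_bg x) (fun x hx hx' => by
      exfalso
      rw [abs_le] at hx'
      linarith [hx.1]) (fun x hx => by
      rw [cap_eq, qr2 (by linarith [hx.1]) hx.2, th_zr (by linarith [hx.1])]
      ring)
  have := bg (a := a2 + 2) (b := b2 - 2) (by linarith) (by linarith)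
  linarith

theorem cap1 : ∫ x in (0:ℝ)..(a2 - 2), cap PP hh x ≤ 1 / 2 ^ 400 + q1 * 2 ^ 408 := by
  have p1 := pos12
  have p2 := pos23
  have p3 := pos34
  have p4 := LL_eq
  have p5 := a1_eq
  have h := up_int (a := 0) (b := a2 - 2) (x0 := a1) (qi := q1) (N := 2 ^ 408) (M := 2 ^ 1200)
    (G := cap PP hh) (F := fun x => gg x ^ 9 / (4 * ww x)) (by linarith) cap_cont q1_nn
    (by positivity)
    (fun x _ => cap_bg x) (fun x hx hx' => by
      rw [abs_le] at hx'
      refine (capF_le (g_all x) (by norm_num) (w1c (by linarith)).1).trans ?_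
      norm_num) (fun x hx => by
      rw [cap_eq, qr1 hx.2])
  have := bg (a := 0) (b := a2 - 2) (by linarith) (by linarith)
  linarith

theorem cap2 : ∫ x in (a2 - 2)..(b2 - 2), cap PP hh x ≤ 1 / 2 ^ 400 + q2 * 2 ^ 327 := by
  have p1 := pos12
  have p2 := pos23
  have p3 := pos34
  have p4 := LL_eq
  have p5 := a1_eq
  have h := up_int (a := a2 - 2) (b := b2 - 2) (x0 := a2) (qi := q2) (N := 2 ^ 327)
    (M := 2 ^ 1200)
    (G := cap PP hh) (F := fun x => gg x ^ 9 / (4 * ww x)) (by linarith) cap_cont q2_nn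
    (by positivity)
    (fun x _ => cap_bg x) (fun x hx hx' => by
      have k1 : gg x ≤ 2 ^ 65 := by
        apply g_le (by positivity)
        have := (h_core2 hx').2
        norm_num at this ⊢
        linarith
      rw [abs_le] at hx'
      refine (capF_le k1 (by norm_num) (w2c (by linarith) (by linarith)).1).trans ?_
      norm_num) (fun x hx => by
      rw [cap_eq, qr2 hx.1 hx.2])
  have := bg (a := a2 - 2) (b := b2 - 2) (by linarith) (by linarith)
  linarith

theorem cap3 : ∫ x in (b2 - 2)..(b1 - 2), cap PP hh x ≤ 1 / 2 ^ 400 + q3 * (1 / 2 ^ 121) := by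
  have p1 := pos12
  have p2 := pos23
  have p3 := pos34
  have p4 := LL_eq
  have p5 := a1_eq
  have h := up_int (a := b2 - 2) (b := b1 - 2) (x0 := b2) (qi := q3) (N := 1 / 2 ^ 121)
    (M := 2 ^ 1200)
    (G := cap PP hh) (F := fun x => gg x ^ 9 / (4 * ww x)) (by linarith) cap_cont q3_nn
    (by positivity)
    (fun x _ => cap_bg x) (fun x hx hx' => by
      have k1 : gg x ≤ 2 := by
        apply g_le (by positivity)
        have := (h_core3 hx').2
        norm_num at this ⊢
        linarith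
      rw [abs_le] at hx'
      refine (capF_le k1 (by norm_num) (w3c (by linarith) (by linarith)).1).trans ?_
      norm_num) (fun x hx => by
      rw [cap_eq, qr3 hx.1 hx.2])
  have := bg (a := b2 - 2) (b := b1 - 2) (by linarith) (by linarith)
  linarith

theorem cap4 : ∫ x in (b1 - 2)..LL, cap PP hh x ≤ 1 / 2 ^ 400 + q4 * 2 ^ 248 := by
  have p1 := pos12
  have p2 := pos23
  have p3 := pos34
  have p4 := LL_eq
  have p5 := a1_eq
  have h := up_int (a := b1 - 2) (b := LL) (x0 := b1) (qi := q4) (N := 2 ^ 248)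
    (M := 2 ^ 1200)
    (G := cap PP hh) (F := fun x => gg x ^ 9 / (4 * ww x)) (by linarith) cap_cont q4_nn
    (by positivity)
    (fun x _ => cap_bg x) (fun x hx hx' => by
      have k1 : gg x ≤ 2 ^ 49 := by
        apply g_le (by positivity)
        have := (h_bounds4 hx.1).2
        norm_num at this ⊢
        linarith
      refine (capF_le k1 (by norm_num) (w4 hx.1).1).trans ?_
      norm_num) (fun x hx => by
      rw [cap_eq, qr4 hx.1])
  have := bg (a := b1 - 2) (b := LL) (by linarith) (by linarith)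
  linarith

theorem split4 {f : ℝ → ℝ} (hf : Continuous f) (a b c d e : ℝ) :
    ∫ x in a..e, f x = (∫ x in a..b, f x) + (∫ x in b..c, f x) + (∫ x in c..d, f x) +
      ∫ x in d..e, f x := by
  rw [intervalIntegral.integral_add_adjacent_intervals (hf.intervalIntegrable _ _)
    (hf.intervalIntegrable _ _), intervalIntegral.integral_add_adjacent_intervals
    (hf.intervalIntegrable _ _) (hf.intervalIntegrable _ _),
    intervalIntegral.integral_add_adjacent_intervals (hf.intervalIntegrable _ _)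
    (hf.intervalIntegrable _ _)]

theorem capt : ∫ x in (0:ℝ)..LL, cap PP hh x ≤ 2 ^ 84 := by
  rw [split4 cap_cont 0 (a2 - 2) (b2 - 2) (b1 - 2) LL]
  have k1 := cap1
  have k2 := cap2
  have k3 := cap3
  have k4 := cap4
  have r1 := q1_le
  have r2 := q2_le
  have r3 := q3_le
  have r4 := q4_le
  norm_num at k1 k2 k3 k4 r1 r2 r3 r4 ⊢
  linarith

end Pool.Agent.R215.PM
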