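import Pool.Agent.R215.PM.Est

set_option autoImplicit false
set_option exponentiation.threshold 3000
open MeasureTheory Filter Topology Set

namespace Pool.Agent.R215.PM

noncomputable def ps0 : ℝ := 1 / 2 ^ 161
noncomputable def ps1 : ℝ := 1 / 2 ^ 96
noncomputable def ps2 : ℝ := 1 / 2 ^ 128
noncomputable def RR : ℝ := 2 ^ 192 + 2 ^ 144 + 1

theorem cost1 : ∫ x in (0:ℝ)..(a2 - 2), cost PP hh ps0 x ≤ 1 / 2 ^ 300 := by
  have p1 := pos12
  have p2 := pos23
  have p3 := pos34
  have p4 := LL_eq
  have p5 := a1_eq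
  have pp : 0 < ps0 := by unfold ps0; positivity
  have h := up_int (a := 0) (b := a2 - 2) (x0 := a1) (qi := q1) (N := 1) (M := 2 ^ 1200)
    (G := cost PP hh ps0)
    (F := fun x => gg x ^ 5 / (4 * ps0 * ww x) * (1 - ps0 * gg x ^ 2) ^ 2) (by linarith)
    (cont_cost PP_cont hh_cont _) q1_nn
    (by positivity)
    (fun x _ => cost_bg (by unfold ps0; norm_num) (by unfold ps0; norm_num) x) (fun x hx hx' => by
      have k1 : |1 - ps0 * gg x ^ 2| ≤ 1 / 2 ^ 161 := by
        have j1 := h_core1 hx'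
        have j2 := (h_bounds1 hx.2).2
        have j3 : gg x ^ 2 ≤ 2 ^ 161 := by
          rw [g_sq, Real.sqrt_le_left (by positivity)]
          norm_num at j2 ⊢
          linarith
        have j4 : 2 ^ 161 - 1 ≤ gg x ^ 2 := by
          rw [g_sq]
          apply Real.le_sqrt_of_sq_le
          norm_num at j1 ⊢
          linarith
        unfold ps0
        rw [abs_le]
        norm_num at j3 j4 ⊢
        constructor <;> linarith
      rw [abs_le] at hx'
      refine (costF_le pp (g_all x) (by norm_num) (w1c (by linarith)).1 k1).trans ?_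
      unfold ps0
      norm_num) (fun x hx => by
      rw [cost_eq pp, qr1 hx.2])
  have := bg (a := 0) (b := a2 - 2) (by linarith) (by linarith)
  have r1 := q1_le
  norm_num at this r1 h ⊢
  linarith

theorem cost2 : ∫ x in (a2 - 2)..(a2 + 2), cost PP hh ps2 x ≤ 1 / 2 ^ 250 := by
  have p1 := pos12
  have p2 := pos23
  have p3 := pos34
  have p4 := LL_eq
  have p5 := a1_eq
  have pp : 0 < ps2 := by unfold ps2; positivity
  have h := up_int (a := a2 - 2) (b := a2 + 2) (x0 := a2) (qi := q2) (N := 1) (M := 2 ^ 1200)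
    (G := cost PP hh ps2)
    (F := fun x => gg x ^ 5 / (4 * ps2 * ww x) * (1 - ps2 * gg x ^ 2) ^ 2) (by linarith)
    (cont_cost PP_cont hh_cont _) q2_nn
    (by positivity)
    (fun x _ => cost_bg (by unfold ps2; norm_num) (by unfold ps2; norm_num) x) (fun x hx hx' => by
      obtain ⟨j1, j2⟩ := h_core2 hx'
      have k0 : gg x ≤ 2 ^ 65 := by
        apply g_le (by positivity)
        norm_num at j2 ⊢
        linarith
      have k1 : |1 - ps2 * gg x ^ 2| ≤ 1 / 2 ^ 128 := by
        have j3 : gg x ^ 2 ≤ 2 ^ 128 + 1 := by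
          rw [g_sq, Real.sqrt_le_left (by positivity)]
          norm_num at j2 ⊢
          linarith
        have j4 : 2 ^ 128 - 1 ≤ gg x ^ 2 := by
          rw [g_sq]
          apply Real.le_sqrt_of_sq_le
          norm_num at j1 ⊢
          linarith
        unfold ps2
        rw [abs_le]
        norm_num at j3 j4 ⊢
        constructor <;> linarith
      rw [abs_le] at hx'
      refine (costF_le pp k0 (by norm_num) (w2c (by linarith) (by linarith)).1 k1).trans ?_
      unfold ps2
      norm_num) (fun x hx => by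
      rw [cost_eq pp, qr2 hx.1 (by linarith [hx.2])])
  have := bg (a := a2 - 2) (b := a2 + 2) (by linarith) (by linarith)
  have r1 := q2_le
  norm_num at this r1 h ⊢
  linarith

theorem cost3 : ∫ x in (a2 + 2)..(b1 - 2), cost PP hh ps0 x ≤ 1 / 2 ^ 116 := by
  have p1 := pos12
  have p2 := pos23
  have p3 := pos34
  have p4 := LL_eq
  have p5 := a1_eq
  have pp : 0 < ps0 := by unfold ps0; positivity
  have h := up_int (a := a2 + 2) (b := b1 - 2) (x0 := b2) (qi := q3) (N := 2 ^ 36) (M := 2 ^ 1200)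
    (G := cost PP hh ps0)
    (F := fun x => gg x ^ 5 / (4 * ps0 * ww x) * (1 - ps0 * gg x ^ 2) ^ 2) (by linarith)
    (cont_cost PP_cont hh_cont _) q3_nn
    (by positivity)
    (fun x _ => cost_bg (by unfold ps0; norm_num) (by unfold ps0; norm_num) x) (fun x hx hx' => by
      obtain ⟨j1, j2⟩ := h_core3 hx'
      have k0 : gg x ≤ 2 := by
        apply g_le (by positivity)
        norm_num at j2 ⊢
        linarith
      have k1 : |1 - ps0 * gg x ^ 2| ≤ 1 := by
        have j3 : gg x ^ 2 ≤ 2 := by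
          rw [g_sq, Real.sqrt_le_left (by positivity)]
          norm_num at j2 ⊢
          linarith
        have j4 : 0 ≤ gg x ^ 2 := sq_nonneg _
        unfold ps0
        rw [abs_le]
        norm_num at j3 j4 ⊢
        constructor <;> linarith
      rw [abs_le] at hx'
      refine (costF_le pp k0 (by norm_num) (w3c (by linarith) (by linarith)).1 k1).trans ?_
      unfold ps0
      norm_num) (fun x hx => by
      rw [cost_eq pp]
      rcases le_total x (b2 - 2) with h' | h'
      · rw [qr2 (by linarith [hx.1]) h', th_zr (by linarith [hx.1]), th_zl (c := b2) (by linarith)]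
        ring
      · rw [qr3 h' hx.2])
  have := bg (a := a2 + 2) (b := b1 - 2) (by linarith) (by linarith)
  have r1 := q3_le
  norm_num at this r1 h ⊢
  linarith

theorem sqrt4 {x : ℝ} (hx : x ∈ Icc (b1 - 2) LL) (hx' : |x - b1| ≤ 1) :
    2 ^ 96 ≤ gg x ^ 2 ∧ gg x ^ 2 ≤ 2 ^ 96 + 2 ^ 48 := by
  have j1 := h_core4 hx'
  have j2 := (h_bounds4 hx.1).2
  rw [g_sq]
  constructor
  · apply Real.le_sqrt_of_sq_le
    norm_num at j1 ⊢
    linarith
  · rw [Real.sqrt_le_left (by positivity)]
    norm_num at j2 ⊢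
    linarith

theorem cost4 : ∫ x in (b1 - 2)..LL, cost PP hh ps1 x ≤ 1 / 2 ^ 116 := by
  have p1 := pos12
  have p2 := pos23
  have p3 := pos34
  have p4 := LL_eq
  have p5 := a1_eq
  have pp : 0 < ps1 := by unfold ps1; positivity
  have h := up_int (a := b1 - 2) (b := LL) (x0 := b1) (qi := q4) (N := 2 ^ 52) (M := 2 ^ 1200)
    (G := cost PP hh ps1)
    (F := fun x => gg x ^ 5 / (4 * ps1 * ww x) * (1 - ps1 * gg x ^ 2) ^ 2) (by linarith)
    (cont_cost PP_cont hh_cont _) q4_nn
    (by positivity)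
    (fun x _ => cost_bg (by unfold ps1; norm_num) (by unfold ps1; norm_num) x) (fun x hx hx' => by
      obtain ⟨j4, j3⟩ := sqrt4 hx hx'
      have j2 := (h_bounds4 hx.1).2
      have k0 : gg x ≤ 2 ^ 49 := by
        apply g_le (by positivity)
        norm_num at j2 ⊢
        linarith
      have k1 : |1 - ps1 * gg x ^ 2| ≤ 1 / 2 ^ 48 := by
        unfold ps1
        rw [abs_le]
        norm_num at j3 j4 ⊢
        constructor <;> linarith
      refine (costF_le pp k0 (by norm_num) (w4 hx.1).1 k1).trans ?_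
      unfold ps1
      norm_num) (fun x hx => by
      rw [cost_eq pp, qr4 hx.1])
  have := bg (a := b1 - 2) (b := LL) (by linarith) (by linarith)
  have r1 := q4_le
  norm_num at this r1 h ⊢
  linarith

theorem neg4 : ∫ x in (b1 - 2)..LL, PP x / Real.sqrt (hh x) * (RR * (RR - hh x)) ≤
    1 / 2 ^ 118 := by
  have p1 := pos12
  have p2 := pos23
  have p3 := pos34
  have p4 := LL_eq
  have p5 := a1_eq
  have hc : Continuous fun x => PP x / Real.sqrt (hh x) * (RR * (RR - hh x)) :=
    (PP_cont.div (Real.continuous_sqrt.comp hh_cont) fun x => (sqrt_pos' h_pos x).ne').mul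
      (continuous_const.mul (continuous_const.sub hh_cont))
  have hR : 0 < RR := by unfold RR; positivity
  have h := up_int (a := b1 - 2) (b := LL) (x0 := b1) (qi := q4) (N := 2 ^ 51) (M := 2 ^ 1200)
    (G := fun x => PP x / Real.sqrt (hh x) * (RR * (RR - hh x)))
    (F := fun x => gg x / ww x * (RR * (RR - hh x))) (by linarith)
    hc q4_nn
    (by positivity)
    (fun x _ => by
      have j1 := (h_bounds x).1
      have j2 := (w_bounds x).1
      have j3 := g_all x
      have j4 := g_pos x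
      have k1 : gg x / ww x ≤ 2 ^ 81 / 1 :=
        div_le_div₀ (by positivity) j3 (by positivity) j2
      have k2 : RR * (RR - hh x) ≤ RR * RR := mul_le_mul_of_nonneg_left (by linarith) hR.le
      have k3 : gg x / ww x * (RR * (RR - hh x)) ≤ gg x / ww x * (RR * RR) :=
        mul_le_mul_of_nonneg_left k2 (by have := w_pos x; positivity)
      have k4 : gg x / ww x * (RR * RR) ≤ 2 ^ 81 / 1 * (RR * RR) :=
        mul_le_mul_of_nonneg_right k1 (by positivity)
      refine (k3.trans k4).trans ?_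
      unfold RR
      norm_num) (fun x hx hx' => by
      have j1 := h_core4 hx'
      have j2 := (w4 hx.1).1
      have j3 := (h_bounds4 hx.1).2
      have j4 := g_pos x
      have k0 : gg x ≤ 2 ^ 49 := by
        apply g_le (by positivity)
        norm_num at j3 ⊢
        linarith
      have k1 : gg x / ww x ≤ 2 ^ 49 / (2 ^ 192 - 1) :=
        div_le_div₀ (by positivity) k0 (by norm_num) j2
      have k2 : RR * (RR - hh x) ≤ RR * 2 := by
        apply mul_le_mul_of_nonneg_left _ hR.le
        unfold RR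
        linarith
      have k3 : gg x / ww x * (RR * (RR - hh x)) ≤ gg x / ww x * (RR * 2) :=
        mul_le_mul_of_nonneg_left k2 (by have := w_pos x; positivity)
      have k4 : gg x / ww x * (RR * 2) ≤ 2 ^ 49 / (2 ^ 192 - 1) * (RR * 2) :=
        mul_le_mul_of_nonneg_right k1 (by positivity)
      refine (k3.trans k4).trans ?_
      unfold RR
      norm_num) (fun x hx => by
      rw [rat_eq, qr4 hx.1]
      ring)
  have := bg (a := b1 - 2) (b := LL) (by linarith) (by linarith)
  have r1 := q4_le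
  norm_num at this r1 h ⊢
  linarith

theorem strength : (2:ℝ) ^ 84 < RR ^ 2 / 128 * ∫ x in (b2 - 1)..(b2 + 1), PP x / Real.sqrt (hh x) := by
  have p1 := pos12
  have p2 := pos23
  have p3 := pos34
  have p4 := LL_eq
  have p5 := a1_eq
  have hc : Continuous fun x => PP x / Real.sqrt (hh x) :=
    PP_cont.div (Real.continuous_sqrt.comp hh_cont) fun x => (sqrt_pos' h_pos x).ne'
  have h := lo_int (a := b2 - 1) (b := b2 + 1) (x0 := b2) (qi := q3) (N := 1 / 2 ^ 129) (M := 0)
    (G := fun x => PP x / Real.sqrt (hh x))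
    (F := fun x => gg x / ww x) le_rfl le_rfl hc q3_nn
    (fun x _ => by
      have := g_pos x
      have := w_pos x
      rw [neg_zero]
      positivity)
    (fun x hx hx' => by
      have j1 := (h_core3 hx').1
      rw [abs_le] at hx'
      have j2 := (w3c (x := x) (by linarith) (by linarith)).2
      have k0 : 1 ≤ gg x := g_ge (by linarith)
      rw [div_le_div_iff₀ (by positivity) (w_pos x)]
      norm_num at j2 ⊢
      linarith) (fun x hx => by
      rw [rat_eq, qr3 (by linarith [hx.1]) (by linarith [hx.2])])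
  have r1 := q3_ge
  have h5 : (1:ℝ) / 2 ^ 154 * (1 / 2 ^ 129) ≤ ∫ x in (b2 - 1)..(b2 + 1), PP x / Real.sqrt (hh x) := by
    have : (1:ℝ) / 2 ^ 154 * (1 / 2 ^ 129) ≤ q3 * (1 / 2 ^ 129) :=
      mul_le_mul_of_nonneg_right r1 (by positivity)
    linarith
  have h6 : RR ^ 2 / 128 * ((1:ℝ) / 2 ^ 154 * (1 / 2 ^ 129)) ≤
      RR ^ 2 / 128 * ∫ x in (b2 - 1)..(b2 + 1), PP x / Real.sqrt (hh x) :=
    mul_le_mul_of_nonneg_left h5 (by positivity)
  refine lt_of_lt_of_le ?_ h6
  unfold RR
  norm_num

theorem depl : ps2 * 2 ^ 84 ≤ ∫ x in (b1 - 1)..(b1 + 1), PP x * (RR / 10) := by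
  have p1 := pos12
  have p2 := pos23
  have p3 := pos34
  have p4 := LL_eq
  have p5 := a1_eq
  have hc : Continuous fun x => PP x * (RR / 10) := PP_cont.mul continuous_const
  have hR : 0 < RR := by unfold RR; positivity
  have h := lo_int (a := b1 - 1) (b := b1 + 1) (x0 := b1) (qi := q4) (N := 2 ^ 140) (M := 0)
    (G := fun x => PP x * (RR / 10))
    (F := fun x => gg x ^ 3 / ww x * (RR / 10)) le_rfl le_rfl hc q4_nn
    (fun x _ => by
      have := g_pos x
      have := w_pos x
      rw [neg_zero]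
      positivity)
    (fun x hx hx' => by
      have j1 := h_core4 hx'
      rw [abs_le] at hx'
      have j2 := (w4 (x := x) (by linarith)).2
      have k0 : 2 ^ 48 ≤ gg x := by
        apply g_ge
        norm_num at j1 ⊢
        linarith
      have k1 : (2 ^ 48) ^ 3 / 2 ^ 192 ≤ gg x ^ 3 / ww x :=
        div_le_div₀ (by have := g_pos x; positivity) (pow_le_pow_left₀ (by positivity) k0 3)
          (w_pos x) j2
      have k2 : (2 ^ 48) ^ 3 / 2 ^ 192 * (RR / 10) ≤ gg x ^ 3 / ww x * (RR / 10) :=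
        mul_le_mul_of_nonneg_right k1 (by positivity)
      refine le_trans ?_ k2
      unfold RR
      norm_num) (fun x hx => by
      rw [← qr4 (by linarith [hx.1])]
      unfold PP
      ring)
  have r1 := q4_ge
  have h5 : (1:ℝ) / 2 ^ 171 * 2 ^ 140 ≤ q4 * 2 ^ 140 :=
    mul_le_mul_of_nonneg_right r1 (by positivity)
  unfold ps2
  norm_num at h h5 ⊢
  linarith

/-- a positive gain for the explicit solution -/
theorem lower : 1 / 2 ^ 72 ≤ ∫ x in (0:ℝ)..LL, PP x * (ww x - hh x) := by
  have p1 := pos12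
  have p2 := pos23
  have p3 := pos34
  have p4 := LL_eq
  have p5 := a1_eq
  have hc : Continuous fun x => PP x * (ww x - hh x) := PP_cont.mul (ww_cont.sub hh_cont)
  rw [split4 hc 0 (a2 - 2) (b2 - 2) (b1 - 2) LL]
  have s1 := lo_int (a := 0) (b := a2 - 2) (x0 := a1) (qi := q1) (N := -2 ^ 245) (M := 2 ^ 1200)
    (G := fun x => PP x * (ww x - hh x))
    (F := fun x => gg x ^ 3 * (ww x - hh x) / ww x) (by linarith) (by linarith) hc q1_nn
    (fun x _ => gain_bg x) (fun x hx hx' => by
      rw [abs_le] at hx'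
      have j1 := (w1c (x := x) (by linarith)).1
      have j2 := (h_bounds1 hx.2).2
      have j3 : gg x ^ 3 ≤ (2 ^ 81) ^ 3 := pow_le_pow_left₀ (g_pos x).le (g_all x) 3
      have j4 : 0 < gg x ^ 3 := pow_pos (g_pos x) 3
      rw [le_div_iff₀ (w_pos x)]
      have h5 : gg x ^ 3 * (hh x - ww x) ≤ (2 ^ 81) ^ 3 * (3 * 2 ^ 320 + 1) := by
        calc gg x ^ 3 * (hh x - ww x) ≤ gg x ^ 3 * (3 * 2 ^ 320 + 1) := by
              apply mul_le_mul_of_nonneg_left _ j4.le
              norm_num at j1 j2 ⊢
              linarith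
          _ ≤ _ := mul_le_mul_of_nonneg_right j3 (by positivity)
      norm_num at h5 j1 ⊢
      linarith) (fun x hx => by
      rw [gain_eq, qr1 hx.2])
  have s2 := lo_int (a := a2 - 2) (b := b2 - 2) (x0 := a2) (qi := q2) (N := 2 ^ 190)
    (M := 2 ^ 1200)
    (G := fun x => PP x * (ww x - hh x))
    (F := fun x => gg x ^ 3 * (ww x - hh x) / ww x) (by linarith) (by linarith) hc q2_nn
    (fun x _ => gain_bg x) (fun x hx hx' => by
      obtain ⟨i1, i2⟩ := h_core2 hx'
      have hx'' := hx'
      rw [abs_le] at hx'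
      obtain ⟨j1, j2⟩ := w2c (x := x) (by linarith) (by linarith)
      have e1 : ww x - hh x = 2 ^ 256 := by
        rw [Pool.Agent.R215.PM.h2 hx.1 hx.2, ch_one hx'']
        unfold D2
        ring
      have k0 : 2 ^ 64 * (7 / 8) ≤ gg x := by
        apply g_ge
        norm_num at i1 ⊢
        linarith
      have j3 : (2 ^ 64 * (7 / 8)) ^ 3 ≤ gg x ^ 3 := pow_le_pow_left₀ (by positivity) k0 3
      rw [e1, le_div_iff₀ (w_pos x)]
      norm_num at j2 j3 ⊢
      linarith) (fun x hx => by
      rw [gain_eq, qr2 hx.1 hx.2])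
  have s3 := lo_int (a := b2 - 2) (b := b1 - 2) (x0 := b2) (qi := q3) (N := 0)
    (M := 2 ^ 1200)
    (G := fun x => PP x * (ww x - hh x))
    (F := fun x => gg x ^ 3 * (ww x - hh x) / ww x) (by linarith) (by linarith) hc q3_nn
    (fun x _ => gain_bg x) (fun x hx hx' => by
      obtain ⟨i1, i2⟩ := h_core3 hx'
      rw [abs_le] at hx'
      obtain ⟨j1, j2⟩ := w3c (x := x) (by linarith) (by linarith)
      have := g_pos x
      have := w_pos x
      have : 0 ≤ ww x - hh x := by
        norm_num at j1 ⊢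
        linarith
      positivity) (fun x hx => by
      rw [gain_eq, qr3 hx.1 hx.2])
  have s4 := lo_int (a := b1 - 2) (b := LL) (x0 := b1) (qi := q4) (N := -(3 / 2 * 2 ^ 96))
    (M := 2 ^ 1200)
    (G := fun x => PP x * (ww x - hh x))
    (F := fun x => gg x ^ 3 * (ww x - hh x) / ww x) (by linarith) (by linarith) hc q4_nn
    (fun x _ => gain_bg x) (fun x hx hx' => by
      have i2 := (h_bounds4 hx.1).2
      have hx'' := hx'
      rw [abs_le] at hx'
      obtain ⟨j1, j2⟩ := w4 (x := x) (by linarith)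
      have e1 : ww x - hh x = -2 ^ 144 := by
        rw [Pool.Agent.R215.PM.h4 hx.1, ch_one hx'']
        unfold D4
        ring
      have k0 : gg x ≤ 2 ^ 48 * (9 / 8) := by
        apply g_le (by positivity)
        norm_num at i2 ⊢
        linarith
      have j3 : gg x ^ 3 ≤ (2 ^ 48 * (9 / 8)) ^ 3 := pow_le_pow_left₀ (g_pos x).le k0 3
      rw [e1, le_div_iff₀ (w_pos x)]
      norm_num at j1 j3 ⊢
      linarith) (fun x hx => by
      rw [gain_eq, qr4 hx.1])
  have b1' := bg (a := 0) (b := a2 - 2) (by linarith) (by linarith)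
  have b2' := bg (a := a2 - 2) (b := b2 - 2) (by linarith) (by linarith)
  have b3' := bg (a := b2 - 2) (b := b1 - 2) (by linarith) (by linarith)
  have b4' := bg (a := b1 - 2) (b := LL) (by linarith) (by linarith)
  have r1 := q1_le
  have r2 := q2_ge
  have r4 := q4_le
  have t1 : q1 * 2 ^ 245 ≤ 1 / 2 ^ 325 * 2 ^ 245 := mul_le_mul_of_nonneg_right r1 (by positivity)
  have t2 : 15 / 2 ^ 264 * 2 ^ 190 ≤ q2 * 2 ^ 190 := mul_le_mul_of_nonneg_right r2 (by positivity)
  have t4 : q4 * (3 / 2 * 2 ^ 96) ≤ 1 / 2 ^ 170 * (3 / 2 * 2 ^ 96) :=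
    mul_le_mul_of_nonneg_right r4 (by positivity)
  have t5 : (1:ℝ) / 2 ^ 72 ≤ -(4 / 2 ^ 400) - 1 / 2 ^ 325 * 2 ^ 245 + 15 / 2 ^ 264 * 2 ^ 190 -
      1 / 2 ^ 170 * (3 / 2 * 2 ^ 96) := by norm_num
  linarith

end Pool.Agent.R215.PM
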