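import Pool.Agent.R215.PM.Model
import Pool.Agent.R215.PM.Est2

set_option autoImplicit false
set_option exponentiation.threshold 3000
open MeasureTheory Filter Topology Set

namespace Pool.Agent.R215.PM

theorem LL_pos : 0 < LL := by unfold LL; norm_num

theorem rpow_quarter (x : ℝ) : (KK x / PP x) ^ (1 / 4 : ℝ) = gg x := by
  rw [K_div_P, ← g_four x, ← Real.rpow_natCast, ← Real.rpow_mul (g_pos x).le]
  norm_num

theorem rpow_half (x : ℝ) : (KK x / PP x) ^ (1 / 2 : ℝ) = Real.sqrt (hh x) := by
  rw [K_div_P, Real.sqrt_eq_rpow]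

/-- every positive solution with exponent `1/2` is a flow -/
theorem flow_of_sol {d : ℝ} (hd : 0 < d) {u : ℝ → ℝ} (hu : IsPosSol LL KK PP (1 / 2) d u) :
    ∃ J : ℝ → ℝ, IsFlow LL d PP hh (fun x => u x / PP x) J := by
  obtain ⟨hu0, p, hpc, hpd, hpe, hp0, hpL⟩ := hu
  refine ⟨fun x => -d * p x, ?_⟩
  refine ⟨fun x hx => div_pos (hu0 x hx) (P_pos x), fun x hx => (hpd x hx).continuousWithinAt,
    continuousOn_const.mul hpc, ?_, ?_, by simp [hp0], by simp [hpL]⟩
  · intro x hx
    have := (hpd x (Ioo_subset_Icc_self hx)).hasDerivAt (Icc_mem_nhds hx.1 hx.2)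
    refine this.congr_deriv ?_
    field_simp
  · intro x hx
    obtain ⟨r, hr, he⟩ := hpe x hx
    refine (hr.const_mul (-d)).congr_deriv ?_
    rw [rpow_half] at he
    have h1 : -d * r = Real.sqrt (hh x) * u x * (1 - u x / KK x) := by linarith
    rw [h1]
    unfold rea KK
    have hs := sqrt_pos' h_pos x
    have hP := P_pos x
    have hh' := h_pos x
    have hss : Real.sqrt (hh x) * Real.sqrt (hh x) = hh x := Real.mul_self_sqrt hh'.le
    set s := Real.sqrt (hh x)
    rw [← hss]
    field_simp

theorem upper_final {d : ℝ} (hd : 0 < d) {u : ℝ → ℝ} (hu : IsPosSol LL KK PP (1 / 2) d u) :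
    ∫ x in (0:ℝ)..LL, u x ≤ (∫ x in (0:ℝ)..LL, KK x) + 1 / 2 ^ 100 := by
  obtain ⟨J, F⟩ := flow_of_sol hd hu
  have p1 := pos12
  have p2 := pos23
  have p3 := pos34
  have p4 := LL_eq
  have p5 := a1_eq
  have hR : 0 < RR := by unfold RR; positivity
  have k := upper (L := LL) (D := d) (P := PP) (h := hh) (v := fun x => u x / PP x) (J := J)
    hd LL_pos PP_cont hh_cont P_pos h_pos F
    (H := 2 ^ 322) (R := RR) (ψ0 := ps0) (ψ1 := ps1) (ψ2 := ps2) (s1 := a1 + 2) (t1 := a2 - 2)
    (s2 := a2 + 2) (t2 := b2 - 2) (c1 := b2 - 1) (c2 := b2 + 1) (t3 := b1 - 2) (e1 := b1 - 1)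
    (e2 := b1 + 1) (τ := 1 / 2 ^ 400) (τ3 := 1 / 2 ^ 117) (Ct := 2 ^ 84) (E := 1 / 2 ^ 114)
    (lA := 2 ^ 323) (l' := 2 ^ 218) (by linarith) (by unfold a1 a2; norm_num) (by linarith)
    (by unfold a2 b2; norm_num) (by linarith) (by linarith) (by linarith) (by linarith)
    (by linarith) (by linarith) (fun x _ => (h_bounds x).2) hR (by
      intro x hx
      rcases le_total x (b1 - 2) with h' | h'
      · rcases le_total x (b2 - 2) with h'' | h''
        · linarith [hx.1]
        · have := (h_bounds3 h'' h').2
          unfold RR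
          norm_num at this ⊢
          linarith
      · have := (h_bounds4 h').2
        unfold RR
        norm_num at this ⊢
        linarith) (by positivity) (by unfold a1 a2; norm_num) (by unfold a2 b2; norm_num)
    (by positivity) (by unfold b1 b2; norm_num) (by unfold ps0; positivity)
    (by unfold ps0 ps2; norm_num) (by unfold ps0 ps1; norm_num) gap1 gap2 capt (by
      have k1 := cap3
      have k2 := neg4
      have k3 := q3_le
      norm_num at k1 k2 k3 ⊢
      linarith) (by
      intro x hx
      have := (h_core3 (x := x) (by rw [abs_le]; constructor <;> linarith [hx.1, hx.2])).2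
      unfold RR
      norm_num at this ⊢
      linarith) strength (by
      intro x hx
      have := h_core4 (x := x) (by rw [abs_le]; constructor <;> linarith [hx.1, hx.2])
      unfold RR
      norm_num at this ⊢
      linarith) (by
      intro x hx
      have := (sqrt4 (x := x) ⟨by linarith [hx.1], by linarith [hx.2]⟩
        (by rw [abs_le]; constructor <;> linarith [hx.1, hx.2])).1
      rw [g_sq] at this
      unfold ps1 RR
      norm_num at this ⊢
      linarith) depl (by
      have k1 := cost1
      have k2 := cost2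
      have k3 := cost3
      have k4 := cost4
      norm_num at k1 k2 k3 k4 ⊢
      linarith) (by
      unfold ps2 ps1 RR
      norm_num)
  have e1 : ∀ x, PP x * (u x / PP x - hh x) = u x - KK x := by
    intro x
    unfold KK
    have := P_pos x
    field_simp
  have e2 : ∫ x in (0:ℝ)..LL, PP x * (u x / PP x - hh x) = (∫ x in (0:ℝ)..LL, u x) -
      ∫ x in (0:ℝ)..LL, KK x := by
    rw [← intervalIntegral.integral_sub]
    · exact intervalIntegral.integral_congr fun x _ => e1 x
    · apply ContinuousOn.intervalIntegrable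
      rw [uIcc_of_le LL_pos.le]
      have : ContinuousOn (fun x => PP x * (u x / PP x)) (Icc 0 LL) :=
        PP_cont.continuousOn.mul F.cv
      refine this.congr fun x _ => ?_
      have := P_pos x
      simp only
      field_simp
    · exact KK_cd.continuous.intervalIntegrable _ _
  rw [e2] at k
  have e3 : 2 * ps2 * (1 / 2 ^ 400) + ps1 * (1 / 2 ^ 117) + 1 / 2 ^ 114 ≤ 1 / 2 ^ 100 := by
    unfold ps2 ps1
    norm_num
  linarith

/-- the explicit solution for the exponent `1/4` and `d = 1` -/
theorem sol_quarter : IsPosSol LL KK PP (1 / 4) 1 (fun x => PP x * ww x) := by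
  have p1 := pos12
  have p2 := pos23
  have p3 := pos34
  have p4 := LL_eq
  have p5 := a1_eq
  refine ⟨fun x _ => mul_pos (P_pos x) (w_pos x), ww1, ?_, ?_, ?_, ?_, ?_⟩
  · exact (continuous_iff_continuousAt.2 fun x => (ww1_deriv x).continuousAt).continuousOn
  · intro x _
    have e : (fun y => PP y * ww y / PP y) = ww := by
      funext y
      have := P_pos y
      field_simp
    rw [e]
    exact (ww_deriv x).hasDerivWithinAt
  · intro x _
    refine ⟨ww2 x, ww1_deriv x, ?_⟩
    rw [rpow_quarter, ode x]
    unfold KK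
    have hP := P_pos x
    have hg := g_pos x
    have hw := w_pos x
    rw [← g_four x]
    unfold PP
    have hq := q_pos x
    field_simp
    ring
  · unfold ww1
    rw [I1_of_le bump1 (by linarith), I1_of_le bump2 (by linarith), I1_of_le bump3 (by linarith),
      I1_of_le bump4 (by linarith)]
    ring
  · unfold ww1
    rw [I1_of_ge bump1 (by linarith), I1_of_ge bump2 (by linarith), I1_of_ge bump3 (by linarith),
      I1_of_ge bump4 (by linarith)]
    unfold F1 F2 F3 F4
    ring

theorem pop_quarter : (∫ x in (0:ℝ)..LL, KK x) + 1 / 2 ^ 72 ≤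
    ∫ x in (0:ℝ)..LL, PP x * ww x := by
  have k := lower
  have e : ∫ x in (0:ℝ)..LL, PP x * (ww x - hh x) = (∫ x in (0:ℝ)..LL, PP x * ww x) -
      ∫ x in (0:ℝ)..LL, KK x := by
    have i1 : IntervalIntegrable (fun x => PP x * ww x) volume 0 LL :=
      (PP_cont.mul ww_cont).intervalIntegrable _ _
    rw [← intervalIntegral.integral_sub i1 (KK_cd.continuous.intervalIntegrable _ _)]
    refine intervalIntegral.integral_congr fun x _ => ?_
    unfold KK
    ring
  rw [e] at k
  linarith

theorem habitat : Habitat LL KK PP where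
  length_pos := LL_pos
  smoothK := by exact_mod_cast contDiff_infty.1 KK_cd 2
  smoothP := by exact_mod_cast contDiff_infty.1 PP_cd 2
  posK x _ := K_pos x
  posP x _ := P_pos x
  nonconst := by
    have p1 := pos12
    have p2 := pos23
    have p3 := pos34
    have p4 := LL_eq
    have p5 := a1_eq
    rintro ⟨c, hc⟩
    have k1 := hc a1 ⟨by linarith, by linarith⟩
    have k2 := hc b2 ⟨by linarith, by linarith⟩
    rw [K_div_P] at k1 k2
    have j1 := h_core1 (x := a1) (by simp)
    have j2 := (h_core3 (x := b2) (by simp)).2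
    norm_num at j1
    linarith

end Pool.Agent.R215.PM
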