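import Pool.Agent.R215.PM.Upper

set_option autoImplicit false
open MeasureTheory Filter Topology Set

namespace Pool.Agent.R215.PM

variable {L D : ℝ} {P h v J : ℝ → ℝ}

/-- the cost density of a constant multiplier `ψ` -/
noncomputable def cost (P h : ℝ → ℝ) (ψ : ℝ) (x : ℝ) : ℝ :=
  P x * (Real.sqrt (h x) / (4 * ψ) * (1 - ψ * Real.sqrt (h x)) ^ 2)

theorem cont_cost (hP : Continuous P) (hh : Continuous h) (ψ : ℝ) :
    Continuous (cost P h ψ) := by
  unfold cost
  have := Real.continuous_sqrt.comp hh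
  have h2 : Continuous fun x => Real.sqrt (h x) := this
  fun_prop

theorem dual_pt (hP0 : ∀ x, 0 < P x) (hh0 : ∀ x, 0 < h x) {ψ : ℝ} (hψ : 0 < ψ) (x : ℝ) :
    P x * (v x - h x) ≤ -(ψ * rea P h v x) + cost P h ψ x := by
  unfold rea cost
  have hs := sqrt_pos' hh0 x
  set s := Real.sqrt (h x) with hsd
  have hss : h x = s * s := (Real.mul_self_sqrt (hh0 x).le).symm
  rw [hss]
  have h1 : -(ψ * (P x * v x * (s * s - v x) / s)) + P x * (s / (4 * ψ) * (1 - ψ * s) ^ 2) -
      P x * (v x - s * s) = P x * ((s + ψ * s ^ 2 - 2 * ψ * v x) ^ 2 / (4 * ψ * s)) := by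
    field_simp
    ring
  have h2 : 0 ≤ P x * ((s + ψ * s ^ 2 - 2 * ψ * v x) ^ 2 / (4 * ψ * s)) := by
    have := hP0 x
    positivity
  linarith

/-- the master inequality on one region -/
theorem region (hP : Continuous P) (hh : Continuous h) (hP0 : ∀ x, 0 < P x)
    (hh0 : ∀ x, 0 < h x) (F : IsFlow L D P h v J) {ψ : ℝ} (hψ : 0 < ψ) {a b : ℝ}
    (ha : a ∈ Icc 0 L) (hb : b ∈ Icc 0 L) (hab : a ≤ b) :
    ∫ x in a..b, P x * (v x - h x) ≤ ψ * (J a - J b) + ∫ x in a..b, cost P h ψ x := by
  have h1 : ∫ x in a..b, (-(ψ * rea P h v x) + cost P h ψ x) =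
      ψ * (J a - J b) + ∫ x in a..b, cost P h ψ x := by
    have i0 : IntervalIntegrable (fun x => -(ψ * rea P h v x)) volume a b :=
      ((ii_on (cont_rea hP hh hh0 F) ha hb).const_mul ψ).neg
    rw [intervalIntegral.integral_add i0
      ((cont_cost hP hh ψ).intervalIntegrable _ _), intervalIntegral.integral_neg,
      intervalIntegral.integral_const_mul, flux hP hh hh0 F ha hb hab]
    ring
  rw [← h1]
  refine intervalIntegral.integral_mono_on hab
    (ii_on (hP.continuousOn.mul (F.cv.sub hh.continuousOn)) ha hb) ?_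
    fun x _ => dual_pt hP0 hh0 hψ x
  exact ((ii_on (cont_rea hP hh hh0 F) ha hb).const_mul ψ).neg.add
    ((cont_cost hP hh ψ).intervalIntegrable _ _)

/-- improved master inequality on the last region when `v` is small on the core `[e1, e2]` -/
theorem region' (hP : Continuous P) (hh : Continuous h) (hP0 : ∀ x, 0 < P x)
    (hh0 : ∀ x, 0 < h x) (F : IsFlow L D P h v J) {ψ : ℝ} (hψ : 0 < ψ) {a b e1 e2 R : ℝ}
    (ha : a ∈ Icc 0 L) (hb : b ∈ Icc 0 L) (_hR : 0 < R)
    (h1 : a ≤ e1) (h2 : e1 ≤ e2) (h3 : e2 ≤ b)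
    (hv : ∀ x ∈ Icc e1 e2, v x ≤ R / 2) (hh1 : ∀ x ∈ Icc e1 e2, 3 * R / 4 ≤ h x)
    (hψR : ∀ x ∈ Icc e1 e2, ψ * R ≤ 6 / 5 * Real.sqrt (h x)) :
    ∫ x in a..b, P x * (v x - h x) ≤ ψ * (J a - J b) + (∫ x in a..b, cost P h ψ x) -
      ∫ x in e1..e2, P x * (R / 10) := by
  have he1 : e1 ∈ Icc 0 L := ⟨ha.1.trans h1, (h2.trans h3).trans hb.2⟩
  have he2 : e2 ∈ Icc 0 L := ⟨he1.1.trans h2, h3.trans hb.2⟩
  have i1 := region hP hh hP0 hh0 F hψ ha he1 h1
  have i3 := region hP hh hP0 hh0 F hψ he2 hb h3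
  have i2 : ∫ x in e1..e2, P x * (v x - h x) ≤ ψ * (J e1 - J e2) -
      ∫ x in e1..e2, P x * (R / 10) := by
    have h4 : ∫ x in e1..e2, (-(ψ * rea P h v x) - P x * (R / 10)) =
        ψ * (J e1 - J e2) - ∫ x in e1..e2, P x * (R / 10) := by
      have i0 : IntervalIntegrable (fun x => -(ψ * rea P h v x)) volume e1 e2 :=
        ((ii_on (cont_rea hP hh hh0 F) he1 he2).const_mul ψ).neg
      have i4 : IntervalIntegrable (fun x => P x * (R / 10)) volume e1 e2 :=
        (hP.mul continuous_const).intervalIntegrable _ _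
      rw [intervalIntegral.integral_sub i0 i4, intervalIntegral.integral_neg,
        intervalIntegral.integral_const_mul, flux hP hh hh0 F he1 he2 h2]
      ring
    rw [← h4]
    refine intervalIntegral.integral_mono_on h2
      (ii_on (hP.continuousOn.mul (F.cv.sub hh.continuousOn)) he1 he2)
      (((ii_on (cont_rea hP hh hh0 F) he1 he2).const_mul ψ).neg.sub
        ((hP.mul continuous_const).intervalIntegrable _ _)) fun x hx => ?_
    have hs := sqrt_pos' hh0 x
    have k1 := hv x hx
    have k2 := hh1 x hx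
    have k3 := hψR x hx
    have k4 := hP0 x
    have k5 := F.pos x ⟨he1.1.trans hx.1, hx.2.trans he2.2⟩
    unfold rea
    set s := Real.sqrt (h x) with hsd
    have h5 : ψ * v x / s ≤ 3 / 5 := by
      rw [div_le_iff₀ hs]
      have : ψ * v x ≤ ψ * (R / 2) := mul_le_mul_of_nonneg_left k1 hψ.le
      linarith
    have h6 : (h x - v x) * (1 - ψ * v x / s) ≥ R / 4 * (2 / 5) :=
      mul_le_mul (by linarith) (by linarith) (by norm_num) (by linarith)
    have h7 : P x * (v x - h x) = -(ψ * (P x * v x * (h x - v x) / s)) -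
        P x * ((h x - v x) * (1 - ψ * v x / s)) := by
      field_simp
      ring
    rw [h7]
    have h8 : P x * (R / 10) ≤ P x * ((h x - v x) * (1 - ψ * v x / s)) :=
      mul_le_mul_of_nonneg_left (by linarith) k4.le
    linarith
  have c1 : ∫ x in a..b, P x * (v x - h x) = (∫ x in a..e1, P x * (v x - h x)) +
      (∫ x in e1..e2, P x * (v x - h x)) + ∫ x in e2..b, P x * (v x - h x) := by
    have hc : ContinuousOn (fun x => P x * (v x - h x)) (Icc 0 L) :=
      hP.continuousOn.mul (F.cv.sub hh.continuousOn)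
    rw [intervalIntegral.integral_add_adjacent_intervals (ii_on hc ha he1) (ii_on hc he1 he2),
      intervalIntegral.integral_add_adjacent_intervals (ii_on hc ha he2) (ii_on hc he2 hb)]
  have c2 : (∫ x in a..e1, cost P h ψ x) + (∫ x in e2..b, cost P h ψ x) ≤
      ∫ x in a..b, cost P h ψ x := by
    have hc := cont_cost hP hh ψ
    have e3 : ∫ x in a..b, cost P h ψ x = (∫ x in a..e1, cost P h ψ x) +
        (∫ x in e1..e2, cost P h ψ x) + ∫ x in e2..b, cost P h ψ x := by
      rw [intervalIntegral.integral_add_adjacent_intervals (hc.intervalIntegrable _ _)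
        (hc.intervalIntegrable _ _),
        intervalIntegral.integral_add_adjacent_intervals (hc.intervalIntegrable _ _)
        (hc.intervalIntegrable _ _)]
    have e4 : 0 ≤ ∫ x in e1..e2, cost P h ψ x := by
      apply intervalIntegral.integral_nonneg h2
      intro x _
      unfold cost
      have := hP0 x
      have := sqrt_pos' hh0 x
      positivity
    linarith
  rw [c1]
  linarith

end Pool.Agent.R215.PM
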