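import Mathlib

set_option autoImplicit false
open MeasureTheory Filter Topology Set

/-! The diffusive logistic equation with dispersal strategy `P` in one space dimension. -/

namespace Pool.Agent.R215.PM

/-- Admissible data: `Ω = (0, L)`, `K` and `P` of class `C²` and positive on `[0, L]`, and `K / P`
not constant on `[0, L]`. -/
structure Habitat (L : ℝ) (K P : ℝ → ℝ) : Prop where
  length_pos : 0 < L
  smoothK : ContDiff ℝ 2 K
  smoothP : ContDiff ℝ 2 P
  posK : ∀ x ∈ Icc 0 L, 0 < K x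
  posP : ∀ x ∈ Icc 0 L, 0 < P x
  nonconst : ¬ ∃ c : ℝ, ∀ x ∈ Icc 0 L, K x / P x = c

/-- `u` is a positive classical solution of
`d (u/P)'' + (K/P)^lam u (1 - u/K) = 0` in `(0, L)`, `(u/P)' = 0` at `0` and at `L`.
Here `v1` is the derivative of `u/P` on `[0, L]` (one-sided at the end points), it is continuous
on `[0, L]` and differentiable in `(0, L)`. -/
def IsPosSol (L : ℝ) (K P : ℝ → ℝ) (lam d : ℝ) (u : ℝ → ℝ) : Prop :=
  (∀ x ∈ Icc 0 L, 0 < u x) ∧
  ∃ v1 : ℝ → ℝ, ContinuousOn v1 (Icc 0 L) ∧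
    (∀ x ∈ Icc 0 L, HasDerivWithinAt (fun y => u y / P y) (v1 x) (Icc 0 L) x) ∧
    (∀ x ∈ Ioo 0 L, ∃ v2 : ℝ, HasDerivAt v1 v2 x ∧
      d * v2 + (K x / P x) ^ lam * u x * (1 - u x / K x) = 0) ∧
    v1 0 = 0 ∧ v1 L = 0

/-- `S(lam)`: the supremum over all dispersal rates `d > 0` of the total population of the
positive solution. -/
noncomputable def maxPop (L : ℝ) (K P : ℝ → ℝ) (lam : ℝ) : EReal :=
  ⨆ (d : ℝ) (_ : 0 < d) (u : ℝ → ℝ) (_ : IsPosSol L K P lam d u),
    ((∫ x in (0:ℝ)..L, u x : ℝ) : EReal)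

/-- Positive solutions are unique. -/
theorem isPosSol_unique {L : ℝ} {K P : ℝ → ℝ} (H : Habitat L K P) {lam d : ℝ} (hd : 0 < d)
    {u u' : ℝ → ℝ} (hu : IsPosSol L K P lam d u) (hu' : IsPosSol L K P lam d u') :
    ∀ x ∈ Icc 0 L, u x = u' x := by
  obtain ⟨hu0, p, hpc, hpd, hpe, hp0, hpL⟩ := hu
  obtain ⟨hu0', p', hpc', hpd', hpe', hp0', hpL'⟩ := hu'
  have hL := H.length_pos
  set v : ℝ → ℝ := fun x => u x / P x with hv
  set v' : ℝ → ℝ := fun x => u' x / P x with hv'
  have vpos : ∀ x ∈ Icc 0 L, 0 < v x := fun x hx => div_pos (hu0 x hx) (H.posP x hx)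
  have vpos' : ∀ x ∈ Icc 0 L, 0 < v' x := fun x hx => div_pos (hu0' x hx) (H.posP x hx)
  have vc : ContinuousOn v (Icc 0 L) := fun x hx => (hpd x hx).continuousWithinAt
  have vc' : ContinuousOn v' (Icc 0 L) := fun x hx => (hpd' x hx).continuousWithinAt
  -- the Brezis-Oswald identity
  set F : ℝ → ℝ := fun x => (p x / v x - p' x / v' x) * (v x ^ 2 - v' x ^ 2) with hF
  set S : ℝ → ℝ := fun x => (K x / P x) ^ lam * P x ^ 2 / (d * K x) *
    (v x - v' x) ^ 2 * (v x + v' x) with hS
  set Q : ℝ → ℝ := fun x => (p x - v x / v' x * p' x) ^ 2 + (p' x - v' x / v x * p x) ^ 2 with hQ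
  have hFc : ContinuousOn F (Icc 0 L) :=
    ((hpc.div vc fun x hx => (vpos x hx).ne').sub (hpc'.div vc' fun x hx => (vpos' x hx).ne')).mul
      ((vc.pow 2).sub (vc'.pow 2))
  have hKc : ContinuousOn K (Icc 0 L) := H.smoothK.continuous.continuousOn
  have hPc : ContinuousOn P (Icc 0 L) := H.smoothP.continuous.continuousOn
  have hrat : ContinuousOn (fun x => (K x / P x) ^ lam) (Icc 0 L) := by
    refine (hKc.div hPc fun x hx => (H.posP x hx).ne').rpow_const fun x hx => ?_
    exact Or.inl (div_pos (H.posK x hx) (H.posP x hx)).ne'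
  have hSc : ContinuousOn S (Icc 0 L) := by
    refine ContinuousOn.mul (ContinuousOn.mul ?_ ((vc.sub vc').pow 2)) (vc.add vc')
    exact (hrat.mul (hPc.pow 2)).div (continuousOn_const.mul hKc) fun x hx =>
      (mul_pos hd (H.posK x hx)).ne'
  have hQc : ContinuousOn Q (Icc 0 L) :=
    ((hpc.sub ((vc.div vc' fun x hx => (vpos' x hx).ne').mul hpc')).pow 2).add
      ((hpc'.sub ((vc'.div vc fun x hx => (vpos x hx).ne').mul hpc)).pow 2)
  have hder : ∀ x ∈ Ioo 0 L, HasDerivAt F (S x + Q x) x := by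
    intro x hx
    have hxI : x ∈ Icc 0 L := Ioo_subset_Icc_self hx
    obtain ⟨r, hr, he⟩ := hpe x hx
    obtain ⟨r', hr', he'⟩ := hpe' x hx
    have nh : Icc 0 L ∈ 𝓝 x := Icc_mem_nhds hx.1 hx.2
    have d1 : HasDerivAt v (p x) x := (hpd x hxI).hasDerivAt nh
    have d2 : HasDerivAt v' (p' x) x := (hpd' x hxI).hasDerivAt nh
    have h1 := vpos x hxI
    have h2 := vpos' x hxI
    have hK := H.posK x hxI
    have hP := H.posP x hxI
    have D1 := ((hr.div d1 h1.ne').sub (hr'.div d2 h2.ne')).mul ((d1.pow 2).sub (d2.pow 2))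
    have e1 : u x = P x * v x := by rw [hv]; field_simp
    have e2 : u' x = P x * v' x := by rw [hv']; field_simp
    have er : r = -((K x / P x) ^ lam * (P x * v x) * (1 - P x * v x / K x)) / d := by
      rw [eq_div_iff hd.ne', ← e1]; linarith
    have er' : r' = -((K x / P x) ^ lam * (P x * v' x) * (1 - P x * v' x / K x)) / d := by
      rw [eq_div_iff hd.ne', ← e2]; linarith
    refine D1.congr_deriv ?_
    simp only [hS, hQ, Pi.div_apply, Pi.sub_apply, Pi.pow_apply]
    rw [er, er']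
    set R := (K x / P x) ^ lam
    field_simp
    ring
  have hSn : ∀ x ∈ Icc 0 L, 0 ≤ S x := by
    intro x hx
    have h1 := vpos x hx
    have h2 := vpos' x hx
    have hK := H.posK x hx
    have hP := H.posP x hx
    have h3 : 0 < (K x / P x) ^ lam := Real.rpow_pos_of_pos (div_pos hK hP) _
    positivity
  have hQn : ∀ x, 0 ≤ Q x := fun x => by positivity
  have ftc := intervalIntegral.integral_eq_sub_of_hasDerivAt_of_le hL.le hFc hder
    (ContinuousOn.intervalIntegrable (by rw [uIcc_of_le hL.le]; exact hSc.add hQc))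
  have F0 : F 0 = 0 := by rw [hF]; simp [hp0, hp0']
  have FL : F L = 0 := by rw [hF]; simp [hpL, hpL']
  rw [F0, FL, sub_zero] at ftc
  have hS0 : ∀ x ∈ Icc 0 L, S x = 0 := by
    by_contra hc
    push Not at hc
    obtain ⟨x0, hx0, hx0'⟩ := hc
    have hpos : 0 < ∫ x in (0:ℝ)..L, (S x + Q x) := by
      apply intervalIntegral.integral_pos hL (hSc.add hQc)
      · intro x hx
        have := hSn x (Ioc_subset_Icc_self hx)
        have := hQn x
        change 0 ≤ S x + Q x
        linarith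
      · refine ⟨x0, hx0, ?_⟩
        have h1 : 0 < S x0 := lt_of_le_of_ne (hSn x0 hx0) (Ne.symm hx0')
        have := hQn x0
        change 0 < S x0 + Q x0
        linarith
    linarith
  intro x hx
  have h0 := hS0 x hx
  have h1 := vpos x hx
  have h2 := vpos' x hx
  have hK := H.posK x hx
  have hP := H.posP x hx
  have h3 : 0 < (K x / P x) ^ lam := Real.rpow_pos_of_pos (div_pos hK hP) _
  have h4 : (v x - v' x) ^ 2 = 0 := by
    simp only [hS] at h0
    rcases mul_eq_zero.1 h0 with h5 | h5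
    · rcases mul_eq_zero.1 h5 with h6 | h6
      · exfalso
        have : 0 < (K x / P x) ^ lam * P x ^ 2 / (d * K x) := by positivity
        linarith
      · exact h6
    · linarith
  have h5 : v x = v' x := by
    have := pow_eq_zero_iff (two_ne_zero) |>.1 h4
    linarith
  simp only [hv, hv'] at h5
  field_simp at h5
  exact h5

end Pool.Agent.R215.PM
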