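import Pool.Agent.R215.PM.Data

set_option autoImplicit false
set_option exponentiation.threshold 3000
open MeasureTheory Filter Topology Set

/-! The ratio `hh`, the weight `qq` and the equation solved by `ww`. -/

namespace Pool.Agent.R215.PM

theorem ch_zl {x c : ℝ} (h : x ≤ c - 2) : ch (x - c) = 0 := by
  apply ch_zero
  rw [abs_of_nonpos (by linarith)]
  linarith

theorem ch_zr {x c : ℝ} (h : c + 2 ≤ x) : ch (x - c) = 0 := by
  apply ch_zero
  rw [abs_of_nonneg (by linarith)]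
  linarith

theorem th_zl {x c : ℝ} (h : x ≤ c - 1) : th (x - c) = 0 := by
  apply th_zero
  rw [abs_of_nonpos (by linarith)]
  linarith

theorem th_zr {x c : ℝ} (h : c + 1 ≤ x) : th (x - c) = 0 := by
  apply th_zero
  rw [abs_of_nonneg (by linarith)]
  linarith

theorem h1 {x : ℝ} (hx : x ≤ a2 - 2) : hh x = ww x + D1 * ch (x - a1) := by
  unfold hh
  have := pos23
  have := pos34
  rw [ch_zl hx, ch_zl (c := b2) (by linarith), ch_zl (c := b1) (by linarith)]
  ring

theorem h2 {x : ℝ} (hx1 : a2 - 2 ≤ x) (hx : x ≤ b2 - 2) : hh x = ww x - D2 * ch (x - a2) := by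
  unfold hh
  have := pos12
  have := pos34
  rw [ch_zr (c := a1) (by linarith), ch_zl (c := b2) (by linarith), ch_zl (c := b1) (by linarith)]
  ring

theorem h3 {x : ℝ} (hx1 : b2 - 2 ≤ x) (hx : x ≤ b1 - 2) : hh x = ww x - D3 * ch (x - b2) := by
  unfold hh
  have := pos12
  have := pos23
  rw [ch_zr (c := a1) (by linarith), ch_zr (c := a2) (by linarith), ch_zl (c := b1) (by linarith)]
  ring

theorem h4 {x : ℝ} (hx1 : b1 - 2 ≤ x) : hh x = ww x + D4 * ch (x - b1) := by
  unfold hh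
  have := pos12
  have := pos23
  have := pos34
  rw [ch_zr (c := a1) (by linarith), ch_zr (c := a2) (by linarith), ch_zr (c := b2) (by linarith)]
  ring

theorem qr1 {x : ℝ} (hx : x ≤ a2 - 2) : qq x = q0 + q1 * th (x - a1) := by
  unfold qq
  have := pos23
  have := pos34
  rw [th_zl (c := a2) (by linarith), th_zl (c := b2) (by linarith), th_zl (c := b1) (by linarith)]
  ring

theorem qr2 {x : ℝ} (hx1 : a2 - 2 ≤ x) (hx : x ≤ b2 - 2) : qq x = q0 + q2 * th (x - a2) := by
  unfold qq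
  have := pos12
  have := pos34
  rw [th_zr (c := a1) (by linarith), th_zl (c := b2) (by linarith), th_zl (c := b1) (by linarith)]
  ring

theorem qr3 {x : ℝ} (hx1 : b2 - 2 ≤ x) (hx : x ≤ b1 - 2) : qq x = q0 + q3 * th (x - b2) := by
  unfold qq
  have := pos12
  have := pos23
  rw [th_zr (c := a1) (by linarith), th_zr (c := a2) (by linarith), th_zl (c := b1) (by linarith)]
  ring

theorem qr4 {x : ℝ} (hx1 : b1 - 2 ≤ x) : qq x = q0 + q4 * th (x - b1) := by
  unfold qq
  have := pos12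
  have := pos23
  have := pos34
  rw [th_zr (c := a1) (by linarith), th_zr (c := a2) (by linarith), th_zr (c := b2) (by linarith)]
  ring

theorem fb_zl {D qi x c : ℝ} (h : x ≤ c - 2) : fb D qi q0 (x - c) = 0 := by
  unfold fb
  rw [ch_zl h, th_zl (by linarith)]
  ring

theorem fb_zr {D qi x c : ℝ} (h : c + 2 ≤ x) : fb D qi q0 (x - c) = 0 := by
  unfold fb
  rw [ch_zr h, th_zr (by linarith)]
  ring

theorem th_ch (y : ℝ) : th y * ch y = th y := by
  rcases le_total |y| 1 with h | h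
  · rw [ch_one h, mul_one]
  · rw [th_zero h, zero_mul]

theorem fb_eq (D qi y : ℝ) : fb D qi q0 y = (q0 + qi * th y) * (D * ch y) := by
  unfold fb
  have := th_ch y
  calc D * (qi * th y + q0 * ch y) = D * (qi * (th y * ch y) + q0 * ch y) := by rw [this]
    _ = _ := by ring

theorem ode (x : ℝ) : ww2 x = qq x * (ww x - hh x) := by
  have p1 := pos12
  have p2 := pos23
  have p3 := pos34
  rcases le_total x (a2 - 2) with h | h
  · rw [h1 h, qr1 h]
    unfold ww2
    rw [fb_zl h, fb_zl (c := b2) (by linarith), fb_zl (c := b1) (by linarith), fb_eq]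
    ring
  rcases le_total x (b2 - 2) with h' | h'
  · rw [h2 h h', qr2 h h']
    unfold ww2
    rw [fb_zr (c := a1) (by linarith), fb_zl (c := b2) (by linarith), fb_zl (c := b1) (by linarith),
      fb_eq]
    ring
  rcases le_total x (b1 - 2) with h'' | h''
  · rw [h3 h' h'', qr3 h' h'']
    unfold ww2
    rw [fb_zr (c := a1) (by linarith), fb_zr (c := a2) (by linarith), fb_zl (c := b1) (by linarith),
      fb_eq]
    ring
  · rw [h4 h'', qr4 h'']
    unfold ww2
    rw [fb_zr (c := a1) (by linarith), fb_zr (c := a2) (by linarith), fb_zr (c := b2) (by linarith),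
      fb_eq]
    ring

/-! ### Bounds of the level and of the ratio -/

theorem w_bounds (x : ℝ) : 1 ≤ ww x ∧ ww x ≤ 2 ^ 320 := by
  rcases le_total x (a2 - 2) with h | h
  · have := w1 h
    norm_num at this ⊢
    constructor <;> linarith
  rcases le_total x (b2 - 2) with h' | h'
  · have := w2 h h'
    norm_num at this ⊢
    constructor <;> linarith
  rcases le_total x (b1 - 2) with h'' | h''
  · have := w3 h' h''
    norm_num at this ⊢
    constructor <;> linarith
  · have := w4 h''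
    norm_num at this ⊢
    constructor <;> linarith

theorem ch_dich (y : ℝ) : |y| ≤ 2 ∨ ch y = 0 := by
  rcases le_total |y| 2 with h | h
  · exact Or.inl h
  · exact Or.inr (ch_zero h)

theorem h_bounds1 {x : ℝ} (hx : x ≤ a2 - 2) : 2 ^ 257 ≤ hh x ∧ hh x ≤ 2 ^ 322 := by
  rw [h1 hx]
  have i1 := w1 hx
  have i2 := ch_nonneg (x - a1)
  have i3 := ch_le_one (x - a1)
  have i4 : 0 ≤ D1 * ch (x - a1) := mul_nonneg D1_pos.le i2
  have i5 : D1 * ch (x - a1) ≤ D1 * 1 := mul_le_mul_of_nonneg_left i3 D1_pos.le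
  have i6 : D1 * 1 = 3 * 2 ^ 320 := by unfold D1; ring
  rw [i6] at i5
  constructor
  · linarith
  · norm_num at i1 i5 ⊢
    linarith

theorem h_core1 {x : ℝ} (hx : |x - a1| ≤ 1) : 2 ^ 322 - 1 ≤ hh x := by
  have p1 := pos12
  rw [abs_le] at hx
  rw [h1 (by linarith), ch_one (by rw [abs_le]; exact hx)]
  have i1 := w1c (x := x) (by linarith)
  unfold D1
  norm_num at i1 ⊢
  linarith

theorem h_bounds2 {x : ℝ} (hx1 : a2 - 2 ≤ x) (hx : x ≤ b2 - 2) :
    2 ^ 128 ≤ hh x ∧ hh x ≤ 2 ^ 257 + 1 := by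
  rw [h2 hx1 hx]
  have i1 := w2 hx1 hx
  have i2 := ch_nonneg (x - a2)
  have i3 := ch_le_one (x - a2)
  have i4 : 0 ≤ D2 * ch (x - a2) := mul_nonneg D2_pos.le i2
  have i5 : D2 * ch (x - a2) ≤ D2 * 1 := mul_le_mul_of_nonneg_left i3 D2_pos.le
  have i6 : D2 * 1 = 2 ^ 256 := by unfold D2; ring
  rw [i6] at i5
  constructor
  · rcases ch_dich (x - a2) with h | h
    · rw [abs_le] at h
      have := w2c hx1 (by linarith)
      norm_num at this i5 ⊢
      linarith
    · rw [h]
      linarith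
  · linarith

theorem h_core2 {x : ℝ} (hx : |x - a2| ≤ 1) : 2 ^ 256 - 1 ≤ hh x ∧ hh x ≤ 2 ^ 256 + 1 := by
  have p1 := pos12
  have p2 := pos23
  rw [abs_le] at hx
  rw [h2 (by linarith) (by linarith), ch_one (by rw [abs_le]; exact hx)]
  have i1 := w2c (x := x) (by linarith) (by linarith)
  unfold D2
  norm_num at i1 ⊢
  constructor <;> linarith

theorem h_bounds3 {x : ℝ} (hx1 : b2 - 2 ≤ x) (hx : x ≤ b1 - 2) :
    2 ≤ hh x ∧ hh x ≤ 2 ^ 192 + 1 := by
  rw [h3 hx1 hx]
  have i1 := w3 hx1 hx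
  have i2 := ch_nonneg (x - b2)
  have i3 := ch_le_one (x - b2)
  have i4 : 0 ≤ D3 * ch (x - b2) := mul_nonneg D3_pos.le i2
  have i5 : D3 * ch (x - b2) ≤ D3 * 1 := mul_le_mul_of_nonneg_left i3 D3_pos.le
  have i6 : D3 * 1 = 2 ^ 128 - 2 := by unfold D3; ring
  rw [i6] at i5
  constructor
  · linarith
  · linarith

theorem h_core3 {x : ℝ} (hx : |x - b2| ≤ 1) : 2 ≤ hh x ∧ hh x ≤ 3 := by
  have p2 := pos23
  have p3 := pos34
  rw [abs_le] at hx
  rw [h3 (by linarith) (by linarith), ch_one (by rw [abs_le]; exact hx)]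
  have i1 := w3c (x := x) (by linarith) (by linarith)
  unfold D3
  norm_num at i1 ⊢
  constructor <;> linarith

theorem h_bounds4 {x : ℝ} (hx1 : b1 - 2 ≤ x) :
    2 ^ 192 - 1 ≤ hh x ∧ hh x ≤ 2 ^ 192 + 2 ^ 144 := by
  rw [h4 hx1]
  have i1 := w4 hx1
  have i2 := ch_nonneg (x - b1)
  have i3 := ch_le_one (x - b1)
  have i4 : 0 ≤ D4 * ch (x - b1) := mul_nonneg D4_pos.le i2
  have i5 : D4 * ch (x - b1) ≤ D4 * 1 := mul_le_mul_of_nonneg_left i3 D4_pos.le
  have i6 : D4 * 1 = 2 ^ 144 := by unfold D4; ring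
  rw [i6] at i5
  constructor
  · linarith
  · linarith

theorem h_core4 {x : ℝ} (hx : |x - b1| ≤ 1) : 2 ^ 192 + 2 ^ 144 - 1 ≤ hh x := by
  have p3 := pos34
  rw [abs_le] at hx
  rw [h4 (by linarith), ch_one (by rw [abs_le]; exact hx)]
  have i1 := w4 (x := x) (by linarith)
  unfold D4
  norm_num at i1 ⊢
  linarith

theorem h_bounds (x : ℝ) : 1 ≤ hh x ∧ hh x ≤ 2 ^ 322 := by
  rcases le_total x (a2 - 2) with h | h
  · have := h_bounds1 h
    norm_num at this ⊢
    constructor <;> linarith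
  rcases le_total x (b2 - 2) with h' | h'
  · have := h_bounds2 h h'
    norm_num at this ⊢
    constructor <;> linarith
  rcases le_total x (b1 - 2) with h'' | h''
  · have := h_bounds3 h' h''
    norm_num at this ⊢
    constructor <;> linarith
  · have := h_bounds4 h''
    norm_num at this ⊢
    constructor <;> linarith

theorem h_pos (x : ℝ) : 0 < hh x := by linarith [(h_bounds x).1]
theorem w_pos (x : ℝ) : 0 < ww x := by linarith [(w_bounds x).1]

theorem q_pos (x : ℝ) : 0 < qq x := by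
  unfold qq
  have := q0_pos
  have := mul_nonneg q1_nn (th_nonneg (x - a1))
  have := mul_nonneg q2_nn (th_nonneg (x - a2))
  have := mul_nonneg q3_nn (th_nonneg (x - b2))
  have := mul_nonneg q4_nn (th_nonneg (x - b1))
  linarith

/-- fourth root of the ratio -/
noncomputable def gg (x : ℝ) : ℝ := Real.sqrt (Real.sqrt (hh x))

/-- the dispersal strategy -/
noncomputable def PP (x : ℝ) : ℝ := qq x * gg x ^ 3 / ww x

/-- the carrying capacity -/
noncomputable def KK (x : ℝ) : ℝ := PP x * hh x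

theorem g_pos (x : ℝ) : 0 < gg x := Real.sqrt_pos.2 (Real.sqrt_pos.2 (h_pos x))

theorem g_sq (x : ℝ) : gg x ^ 2 = Real.sqrt (hh x) := by
  unfold gg
  exact Real.sq_sqrt (Real.sqrt_nonneg _)

theorem g_four (x : ℝ) : gg x ^ 4 = hh x := by
  have : gg x ^ 4 = (gg x ^ 2) ^ 2 := by ring
  rw [this, g_sq, Real.sq_sqrt (h_pos x).le]

theorem g_le {x c : ℝ} (hc : 0 ≤ c) (h : hh x ≤ c ^ 4) : gg x ≤ c := by
  rw [← g_four x] at h
  exact le_of_pow_le_pow_left₀ (by norm_num) hc h

theorem g_ge {x c : ℝ} (h : c ^ 4 ≤ hh x) : c ≤ gg x := by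
  rw [← g_four x] at h
  exact le_of_pow_le_pow_left₀ (by norm_num) (g_pos x).le h

theorem P_pos (x : ℝ) : 0 < PP x := by
  unfold PP
  have := q_pos x
  have := g_pos x
  have := w_pos x
  positivity

theorem K_pos (x : ℝ) : 0 < KK x := mul_pos (P_pos x) (h_pos x)

theorem K_div_P (x : ℝ) : KK x / PP x = hh x := by
  unfold KK
  rw [mul_comm, mul_div_assoc, div_self (P_pos x).ne', mul_one]

/-! ### Smoothness -/

theorem ww_cd : ContDiff ℝ (⊤ : ℕ∞) ww := by
  have hw2 : ContDiff ℝ (⊤ : ℕ∞) ww2 := by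
    unfold ww2 fb
    have := th_smooth
    have := ch_smooth
    fun_prop
  have hw1 : ContDiff ℝ (⊤ : ℕ∞) ww1 := by
    rw [contDiff_infty_iff_deriv]
    refine ⟨fun x => (ww1_deriv x).differentiableAt, ?_⟩
    rw [funext fun x => (ww1_deriv x).deriv]
    exact hw2
  rw [contDiff_infty_iff_deriv]
  refine ⟨fun x => (ww_deriv x).differentiableAt, ?_⟩
  rw [funext fun x => (ww_deriv x).deriv]
  exact hw1

theorem hh_cd : ContDiff ℝ (⊤ : ℕ∞) hh := by
  unfold hh
  have := th_smooth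
  have := ch_smooth
  have := ww_cd
  fun_prop

theorem qq_cd : ContDiff ℝ (⊤ : ℕ∞) qq := by
  unfold qq
  have := th_smooth
  fun_prop

theorem gg_cd : ContDiff ℝ (⊤ : ℕ∞) gg := by
  unfold gg
  have h1 : ContDiff ℝ (⊤ : ℕ∞) fun x => Real.sqrt (hh x) := hh_cd.sqrt fun x => (h_pos x).ne'
  exact h1.sqrt fun x => (Real.sqrt_pos.2 (h_pos x)).ne'

theorem PP_cd : ContDiff ℝ (⊤ : ℕ∞) PP := by
  unfold PP
  exact (qq_cd.mul (gg_cd.pow 3)).div ww_cd fun x => (w_pos x).ne'

theorem KK_cd : ContDiff ℝ (⊤ : ℕ∞) KK := by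
  unfold KK
  exact PP_cd.mul hh_cd

end Pool.Agent.R215.PM
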