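import Mathlib

set_option autoImplicit false
open MeasureTheory Filter Topology Set

/-! An a priori upper bound for the total population, exponent 1/2, in one space dimension. -/

namespace Pool.Agent.R215.PM

/-- reaction term with exponent `1/2` -/
noncomputable def rea (P h v : ℝ → ℝ) (x : ℝ) : ℝ := P x * v x * (h x - v x) / Real.sqrt (h x)

/-- pointwise bound of the reaction term -/
noncomputable def cap (P h : ℝ → ℝ) (x : ℝ) : ℝ := P x * (h x * Real.sqrt (h x)) / 4

/-- `J = - D v'` is the flux -/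
structure IsFlow (L D : ℝ) (P h v J : ℝ → ℝ) : Prop where
  pos : ∀ x ∈ Icc 0 L, 0 < v x
  cv : ContinuousOn v (Icc 0 L)
  cJ : ContinuousOn J (Icc 0 L)
  dv : ∀ x ∈ Ioo 0 L, HasDerivAt v (-(J x) / D) x
  dJ : ∀ x ∈ Ioo 0 L, HasDerivAt J (rea P h v x) x
  J0 : J 0 = 0
  JL : J L = 0

variable {L D : ℝ} {P h v J : ℝ → ℝ}

theorem sqrt_pos' (hh : ∀ x, 0 < h x) (x : ℝ) : 0 < Real.sqrt (h x) := Real.sqrt_pos.2 (hh x)

theorem cont_rea (hP : Continuous P) (hh : Continuous h) (hh0 : ∀ x, 0 < h x)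
    (F : IsFlow L D P h v J) : ContinuousOn (rea P h v) (Icc 0 L) := by
  unfold rea
  refine ContinuousOn.div ?_ (Real.continuous_sqrt.comp hh).continuousOn
    fun x _ => (sqrt_pos' hh0 x).ne'
  exact (hP.continuousOn.mul F.cv).mul (hh.continuousOn.sub F.cv)

theorem cont_cap (hP : Continuous P) (hh : Continuous h) : Continuous (cap P h) := by
  unfold cap
  have := Real.continuous_sqrt.comp hh
  exact (hP.mul (hh.mul this)).div_const 4

theorem ii_on {f : ℝ → ℝ} (hf : ContinuousOn f (Icc 0 L)) {a b : ℝ} (ha : a ∈ Icc 0 L)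
    (hb : b ∈ Icc 0 L) : IntervalIntegrable f volume a b := by
  apply ContinuousOn.intervalIntegrable
  refine hf.mono ?_
  intro x hx
  rcases le_total a b with h | h
  · rw [uIcc_of_le h] at hx
    exact ⟨ha.1.trans hx.1, hx.2.trans hb.2⟩
  · rw [uIcc_of_ge h] at hx
    exact ⟨hb.1.trans hx.1, hx.2.trans ha.2⟩

theorem flux (hP : Continuous P) (hh : Continuous h) (hh0 : ∀ x, 0 < h x)
    (F : IsFlow L D P h v J) {a b : ℝ} (ha : a ∈ Icc 0 L) (hb : b ∈ Icc 0 L) (hab : a ≤ b) :
    ∫ x in a..b, rea P h v x = J b - J a := by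
  have hsub : Icc a b ⊆ Icc 0 L := fun x hx => ⟨ha.1.trans hx.1, hx.2.trans hb.2⟩
  refine intervalIntegral.integral_eq_sub_of_hasDerivAt_of_le hab (F.cJ.mono hsub)
    (fun x hx => F.dJ x ⟨lt_of_le_of_lt ha.1 hx.1, lt_of_lt_of_le hx.2 hb.2⟩)
    (ii_on (cont_rea hP hh hh0 F) ha hb)

theorem drop (hD : 0 < D) (F : IsFlow L D P h v J) {a b : ℝ} (ha : a ∈ Icc 0 L)
    (hb : b ∈ Icc 0 L) (hab : a ≤ b) : ∫ x in a..b, J x = D * (v a - v b) := by
  have hsub : Icc a b ⊆ Icc 0 L := fun x hx => ⟨ha.1.trans hx.1, hx.2.trans hb.2⟩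
  have h1 := intervalIntegral.integral_eq_sub_of_hasDerivAt_of_le (f := fun x => -D * v x)
    (f' := J) hab (continuousOn_const.mul (F.cv.mono hsub))
    (fun x hx => by
      have := (F.dv x ⟨lt_of_le_of_lt ha.1 hx.1, lt_of_lt_of_le hx.2 hb.2⟩).const_mul (-D)
      refine this.congr_deriv ?_
      field_simp)
    (ii_on F.cJ ha hb)
  rw [h1]
  ring

theorem rea_le_cap (hP0 : ∀ x, 0 < P x) (hh0 : ∀ x, 0 < h x) (x : ℝ) :
    rea P h v x ≤ cap P h x := by
  unfold rea cap
  have hs := sqrt_pos' hh0 x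
  have hss : Real.sqrt (h x) * Real.sqrt (h x) = h x := Real.mul_self_sqrt (hh0 x).le
  rw [div_le_div_iff₀ hs (by norm_num)]
  have h1 : v x * (h x - v x) * 4 ≤ h x * h x := by nlinarith [sq_nonneg (h x - 2 * v x)]
  calc P x * v x * (h x - v x) * 4 = P x * (v x * (h x - v x) * 4) := by ring
    _ ≤ P x * (h x * h x) := mul_le_mul_of_nonneg_left h1 (hP0 x).le
    _ = P x * (h x * Real.sqrt (h x)) * Real.sqrt (h x) := by
        rw [mul_assoc (P x), mul_assoc (h x), hss]

theorem cap_nonneg (hP0 : ∀ x, 0 < P x) (hh0 : ∀ x, 0 < h x) (x : ℝ) : 0 ≤ cap P h x := by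
  unfold cap
  have := hP0 x
  have := hh0 x
  positivity

theorem int_rea_le (hP : Continuous P) (hh : Continuous h) (hP0 : ∀ x, 0 < P x)
    (hh0 : ∀ x, 0 < h x) (F : IsFlow L D P h v J) {a b : ℝ} (ha : a ∈ Icc 0 L)
    (hb : b ∈ Icc 0 L) (hab : a ≤ b) : J b - J a ≤ ∫ x in a..b, cap P h x := by
  rw [← flux hP hh hh0 F ha hb hab]
  exact intervalIntegral.integral_mono_on hab (ii_on (cont_rea hP hh hh0 F) ha hb)
    ((cont_cap hP hh).intervalIntegrable _ _) fun x _ => rea_le_cap hP0 hh0 x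

theorem int_cap_mono (hP : Continuous P) (hh : Continuous h) (hP0 : ∀ x, 0 < P x)
    (hh0 : ∀ x, 0 < h x) {a b c d : ℝ} (h1 : c ≤ a) (h2 : a ≤ b) (h3 : b ≤ d) :
    ∫ x in a..b, cap P h x ≤ ∫ x in c..d, cap P h x :=
  intervalIntegral.integral_mono_interval h1 h2 h3
    (Eventually.of_forall fun x => cap_nonneg hP0 hh0 x)
    ((cont_cap hP hh).intervalIntegrable _ _)

/-- maximum principle -/
theorem max_le (hD : 0 < D) (hL : 0 < L) (hP : Continuous P) (hh : Continuous h)
    (hP0 : ∀ x, 0 < P x) (hh0 : ∀ x, 0 < h x) (F : IsFlow L D P h v J) {M y : ℝ}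
    (hy : y ∈ Icc 0 L) (hy' : y = 0 ∨ v y ≤ M) (hM : ∀ x ∈ Icc y L, h x ≤ M) :
    ∀ x ∈ Icc y L, v x ≤ M := by
  have hsub : Icc y L ⊆ Icc 0 L := fun x hx => ⟨hy.1.trans hx.1, hx.2⟩
  obtain ⟨z, hz, hmax⟩ := isCompact_Icc.exists_isMaxOn (nonempty_Icc.2 hy.2) (F.cv.mono hsub)
  have hzmax : ∀ x ∈ Icc y L, v x ≤ v z := fun x hx => hmax hx
  by_contra hc
  push Not at hc
  obtain ⟨x0, hx0, hx0'⟩ := hc
  have hvz : M < v z := lt_of_lt_of_le hx0' (hzmax x0 hx0)
  have hrea : ∀ x ∈ Icc y L, M < v x → rea P h v x < 0 := by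
    intro x hx hv
    unfold rea
    have h1 := hM x hx
    have h2 := F.pos x (hsub hx)
    have h3 := hP0 x
    apply div_neg_of_neg_of_pos _ (sqrt_pos' hh0 x)
    apply mul_neg_of_pos_of_neg (mul_pos h3 h2)
    linarith
  have hnear : ∀ᶠ x in 𝓝[Icc y L] z, M < v x :=
    (F.cv.mono hsub z hz).eventually (lt_mem_nhds hvz)
  rw [eventually_nhdsWithin_iff, Metric.eventually_nhds_iff] at hnear
  obtain ⟨δ, hδ, hnear⟩ := hnear
  rcases eq_or_lt_of_le hz.1 with hzy | hzy
  · -- z = y
    rcases hy' with h0 | h0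
    · -- y = 0
      have hz0 : z = 0 := by rw [← hzy, h0]
      subst hz0
      rw [h0] at hzmax hrea hnear
      set b := min L (δ / 2) with hb
      have hb0 : 0 < b := lt_min hL (by positivity)
      have hbL : b ≤ L := min_le_left _ _
      have hbm : b ∈ Icc 0 L := ⟨hb0.le, hbL⟩
      have hJ : ∀ x ∈ Ioc 0 b, J x < 0 := by
        intro x hx
        have hxm : x ∈ Icc 0 L := ⟨hx.1.le, hx.2.trans hbL⟩
        have h1 := flux hP hh hh0 F (left_mem_Icc.2 hL.le) hxm hx.1.le
        rw [F.J0, sub_zero] at h1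
        rw [← h1]
        have h2 : 0 < ∫ s in (0:ℝ)..x, -rea P h v s := by
          refine intervalIntegral.intervalIntegral_pos_of_pos_on
            ((ii_on (cont_rea hP hh hh0 F) (left_mem_Icc.2 hL.le) hxm).neg) (fun s hs => ?_) hx.1
          have hsm : s ∈ Icc 0 L := ⟨hs.1.le, hs.2.le.trans hxm.2⟩
          have := hrea s hsm (hnear (by
            rw [Real.dist_eq, sub_zero, abs_of_pos hs.1]
            have := hs.2
            have := hx.2
            have := min_le_right L (δ / 2)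
            linarith) hsm)
          linarith
        rw [intervalIntegral.integral_neg] at h2
        linarith
      have h3 := drop hD F (left_mem_Icc.2 hL.le) hbm hb0.le
      have h4 : 0 < ∫ s in (0:ℝ)..b, -J s := by
        refine intervalIntegral.intervalIntegral_pos_of_pos_on
          ((ii_on F.cJ (left_mem_Icc.2 hL.le) hbm).neg) (fun s hs => ?_) hb0
        have := hJ s ⟨hs.1, hs.2.le⟩
        linarith
      rw [intervalIntegral.integral_neg, h3] at h4
      have h5 := hzmax b hbm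
      nlinarith
    · rw [hzy] at h0
      linarith
  · -- y < z
    have hzm : z ∈ Icc 0 L := hsub hz
    have hJz : J z = 0 := by
      rcases eq_or_lt_of_le hz.2 with h1 | h1
      · rw [h1, F.JL]
      · have hloc : IsLocalMax v z := by
          filter_upwards [Icc_mem_nhds hzy h1] with x hx
          exact hzmax x hx
        have h2 := hloc.hasDerivAt_eq_zero (F.dv z ⟨lt_of_le_of_lt hy.1 hzy, h1⟩)
        rw [div_eq_zero_iff] at h2
        rcases h2 with h2 | h2
        · linarith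
        · linarith
    set a := max y (z - δ / 2) with ha
    have haz : a < z := max_lt hzy (by linarith)
    have hya : y ≤ a := le_max_left _ _
    have ham : a ∈ Icc 0 L := ⟨hy.1.trans hya, haz.le.trans hz.2⟩
    have hJ : ∀ x ∈ Ico a z, 0 < J x := by
      intro x hx
      have hxm : x ∈ Icc 0 L := ⟨ham.1.trans hx.1, hx.2.le.trans hz.2⟩
      have h1 := flux hP hh hh0 F hxm hzm hx.2.le
      rw [hJz, zero_sub] at h1
      have h2 : 0 < ∫ s in x..z, -rea P h v s := by
        refine intervalIntegral.intervalIntegral_pos_of_pos_on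
          ((ii_on (cont_rea hP hh hh0 F) hxm hzm).neg) (fun s hs => ?_) hx.2
        have hsm : s ∈ Icc y L := ⟨hya.trans (hx.1.trans hs.1.le), hs.2.le.trans hz.2⟩
        have := hrea s hsm (hnear (by
          rw [Real.dist_eq, abs_lt]
          have h5 := hs.1
          have h6 := hx.1
          have h7 := le_max_right y (z - δ / 2)
          have h8 := hs.2
          constructor <;> linarith) hsm)
        linarith
      rw [intervalIntegral.integral_neg, h1] at h2
      linarith
    have h3 := drop hD F ham hzm haz.le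
    have h4 : 0 < ∫ s in a..z, J s :=
      intervalIntegral.intervalIntegral_pos_of_pos_on (ii_on F.cJ ham hzm)
        (fun s hs => hJ s ⟨hs.1.le, hs.2⟩) haz
    rw [h3] at h4
    have h5 := hzmax a ⟨hya, haz.le.trans hz.2⟩
    nlinarith

end Pool.Agent.R215.PM
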